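import Pool.Agent.H46.CDCS.LiftG
import Pool.Graph.R_seed8.H126R2.CDC.Colour
import Pool.Graph.R_seed8.Results.MP_0c3aa4_co.FewOddParts

set_option autoImplicit false
set_option linter.unusedSectionVars false

/-!
Eight even sets that cover the edges of a 2-regular subgraph `S` once and all other edges twice,
from three even sets covering the edges outside `S`, with a choice of a sum of the three sets for
each circuit of `S`.
-/

namespace Pool.Agent.H46.CDCS

open Finset
open Pool.Agent.Helper347.Sab hiding F2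
open Pool.Agent.Helper998.Near (Rch rch_symm even_iff_cast)
open Pool.Agent.Helper879.ECD (F2 IsFlow)
open Pool.Agent.H126R2.CDC (T3 lam inS dot card_inS tri_inS toB toB_add toB_dot lab lab_add
  f2_eq_of_add3)
open Pool.Agent.W831.HI (dg_cast)

variable {V E : Type} [Fintype V] [DecidableEq V] [Fintype E] [DecidableEq E]

theorem ev_flow (G : MGraph V E) (al be : E → V) (hab : ∀ e, al e ≠ be e)
    (hends : ∀ e, G.ends e = s(al e, be e)) (X : Finset E) (hX : Ev G X) :
    IsFlow al be (fun e => if e ∈ X then 1 else 0) := by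
  classical
  intro c
  have h1 : ∀ e, c (al e) + c (be e) = ∑ v, if v ∈ G.ends e then c v else 0 := by
    intro e
    rw [hends e]
    have h2 : (univ.filter fun v => v ∈ s(al e, be e)) = {al e, be e} := by
      ext v
      simp
    rw [← Finset.sum_filter, h2, Finset.sum_pair (hab e)]
  have h3 : ∑ e, (if e ∈ X then (1 : F2) else 0) * (c (al e) + c (be e)) =
      ∑ v, c v * ∑ e, (if v ∈ G.ends e then (if e ∈ X then (1 : F2) else 0) else 0) := by
    simp only [h1, Finset.mul_sum]
    rw [Finset.sum_comm]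
    refine Finset.sum_congr rfl fun v _ => Finset.sum_congr rfl fun e _ => ?_
    by_cases hv : v ∈ G.ends e <;> simp [hv, mul_comm]
  rw [h3]
  refine Finset.sum_eq_zero fun v _ => ?_
  rw [← dg_cast, (even_iff_cast _).1 (hX v), mul_zero]

theorem flow_at (G : MGraph V E) (al be : E → V) (hab : ∀ e, al e ≠ be e)
    (hends : ∀ e, G.ends e = s(al e, be e)) (ψ : E → F2) (hψ : IsFlow al be ψ) (v : V) :
    ∑ e ∈ univ.filter (fun e => v ∈ G.ends e), ψ e = 0 := by
  classical
  have h1 := hψ (fun u => if u = v then 1 else 0)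
  rw [Finset.sum_filter]
  refine Eq.trans (Finset.sum_congr rfl fun e _ => ?_) h1
  have hm : v ∈ G.ends e ↔ al e = v ∨ be e = v := by
    rw [hends e, Sym2.mem_iff]
    constructor
    · rintro (h | h)
      · exact Or.inl h.symm
      · exact Or.inr h.symm
    · rintro (h | h)
      · exact Or.inl h.symm
      · exact Or.inr h.symm
  by_cases h5 : al e = v
  · have h6 : ¬ be e = v := fun h => hab e (h5.trans h.symm)
    rw [if_pos (hm.2 (Or.inl h5)), if_pos h5, if_neg h6, add_zero, mul_one]
  · by_cases h6 : be e = v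
    · rw [if_pos (hm.2 (Or.inr h6)), if_neg h5, if_pos h6, zero_add, mul_one]
    · rw [if_neg (fun h => (hm.1 h).elim h5 h6), if_neg h5, if_neg h6, add_zero, mul_zero]

theorem sum_three {M : Type} [AddCommMonoid M] (ψ : E → M) (e f g : E) (hef : e ≠ f)
    (heg : e ≠ g) (hfg : f ≠ g) :
    ∑ x ∈ ({e, f, g} : Finset E), ψ x = ψ e + (ψ f + ψ g) := by
  rw [Finset.sum_insert (by simp [hef, heg]), Finset.sum_pair hfg]

theorem dg_three (G : MGraph V E) (X : Finset E) (v : V) (e f g : E) (hef : e ≠ f)
    (heg : e ≠ g) (hfg : f ≠ g) (h : univ.filter (fun x => v ∈ G.ends x) = {e, f, g}) :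
    dg G X v = (if e ∈ X then 1 else 0) + ((if f ∈ X then 1 else 0) +
      (if g ∈ X then 1 else 0)) := by
  classical
  have h1 : (X.filter fun x => v ∈ G.ends x) = ({e, f, g} : Finset E).filter (fun x => x ∈ X) := by
    rw [← h]
    ext x
    simp only [mem_filter, mem_univ, true_and]
    tauto
  unfold dg
  rw [h1, card_filter, sum_three _ e f g hef heg hfg]

theorem even3 : ∀ p q r : Bool, xor (xor p q) r = false →
    Even ((if p = true then 1 else 0) + ((if q = true then 1 else 0) +
      (if r = true then 1 else 0)) : ℕ) := by decide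

theorem two_single : ∀ x y c : T3, T3.add x y ≠ (false, false, false) →
    xor (xor (decide (c = x)) (decide (c = y))) (inS c (T3.add x y) (T3.add (lam x) (lam y))) =
      false := by decide +kernel

theorem lab_lam (A B : Fin 3 → E → F2) (e : E) (h : ∀ i, B i e = lamc (fun j => A j e) i) :
    lab B e = lam (lab A e) := by
  unfold lab
  rw [h 0, h 1, h 2]
  unfold lamc
  beta_reduce
  generalize A 0 e = w
  generalize A 1 e = x
  generalize A 2 e = y
  revert w x y
  decide

theorem lamc_add (x y : Fin 3 → F2) (i : Fin 3) :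
    lamc (fun j => x j + y j) i = lamc x i + lamc y i + crs x y i := by
  unfold lamc crs
  split_ifs <;> ring

theorem lab_ne (A : Fin 3 → E → F2) (e : E) (h : A 0 e ≠ 0 ∨ A 1 e ≠ 0 ∨ A 2 e ≠ 0) :
    lab A e ≠ (false, false, false) := by
  intro h1
  unfold lab toB at h1
  simp only [Prod.mk.injEq, decide_eq_false_iff_not, not_not] at h1
  obtain ⟨a, b, c⟩ := h1
  rcases h with h | h | h
  · exact h a
  · exact h b
  · exact h c

/-- Eight even sets from two compatible triples of flows. -/
theorem eight_core (G : MGraph V E) (hG : IsCubic G) (S : Finset E)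
    (hS : ∀ v, dg G S v = 0 ∨ dg G S v = 2) (al be : E → V) (hab : ∀ e, al e ≠ be e)
    (hends : ∀ e, G.ends e = s(al e, be e)) (Z Y : Fin 3 → E → F2)
    (hZf : ∀ i, IsFlow al be (Z i)) (hY : ∀ i, IsFlow al be (Y i))
    (hnz : ∀ e, e ∉ S → Z 0 e ≠ 0 ∨ Z 1 e ≠ 0 ∨ Z 2 e ≠ 0)
    (hY1 : ∀ e, e ∉ S → Z 0 e * Y 0 e + Z 1 e * Y 1 e + Z 2 e * Y 2 e = 1)
    (hY2 : ∀ e ∈ S, ∀ i, Y i e = lamc (fun j => Z j e) i) :
    ∃ X : T3 → Finset E, (∀ c, Ev G (X c)) ∧
      (∀ e ∈ S, (univ.filter fun c => e ∈ X c).card = 1) ∧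
      (∀ e, e ∉ S → (univ.filter fun c => e ∈ X c).card = 2) := by
  classical
  have hdot : ∀ e, e ∉ S → dot (lab Z e) (lab Y e) = true :=
    fun e he => toB_dot _ _ _ _ _ _ (hY1 e he)
  obtain ⟨X, hX⟩ : ∃ X : T3 → Finset E, ∀ c e, e ∈ X c ↔
      (if e ∈ S then decide (c = lab Z e) else inS c (lab Z e) (lab Y e)) = true :=
    ⟨fun c => univ.filter fun e =>
      (if e ∈ S then decide (c = lab Z e) else inS c (lab Z e) (lab Y e)) = true, by
      intro c e; simp⟩
  have hXS : ∀ c e, e ∈ S → (e ∈ X c ↔ decide (c = lab Z e) = true) := by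
    intro c e he
    rw [hX, if_pos he]
  have hXN : ∀ c e, e ∉ S → (e ∈ X c ↔ inS c (lab Z e) (lab Y e) = true) := by
    intro c e he
    rw [hX, if_neg he]
  refine ⟨X, ?_, ?_, ?_⟩
  · intro c v
    have hsum : ∀ (W : Fin 3 → E → F2), (∀ i, IsFlow al be (W i)) → ∀ e f g : E, e ≠ f → e ≠ g →
        f ≠ g → univ.filter (fun x => v ∈ G.ends x) = {e, f, g} →
        lab W g = T3.add (lab W e) (lab W f) := by
      intro W hW e f g hef heg hfg h
      apply lab_add
      intro i
      have h1 := flow_at G al be hab hends (W i) (hW i) v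
      rw [h, sum_three _ e f g hef heg hfg] at h1
      exact f2_eq_of_add3 h1
    rcases hS v with h0 | h2
    · -- off S
      obtain ⟨e, f, g, hef, heg, hfg, h⟩ := card_eq_three.1 (hG v)
      have hn : ∀ x, v ∈ G.ends x → x ∉ S := by
        intro x hx hxS
        have := dg_pos_of_mem (G := G) hxS hx
        omega
      have hmem : ∀ x, x ∈ ({e, f, g} : Finset E) → v ∈ G.ends x := by
        intro x hx
        rw [← h, mem_filter] at hx
        exact hx.2
      have he := hn e (hmem e (by simp))
      have hf := hn f (hmem f (by simp))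
      have hg := hn g (hmem g (by simp))
      rw [dg_three G (X c) v e f g hef heg hfg h]
      simp only [hXN c e he, hXN c f hf, hXN c g hg]
      apply even3
      rw [hsum Z hZf e f g hef heg hfg h, hsum Y hY e f g hef heg hfg h]
      apply tri_inS
      rw [hdot e he, hdot f hf, ← hsum Z hZf e f g hef heg hfg h, ← hsum Y hY e f g hef heg hfg h,
        hdot g hg]
      rfl
    · -- on S
      obtain ⟨e, f, hef, h⟩ := card_eq_two.1 h2
      have h3 := dg_sdiff (G := G) (X := univ) (Y := S) (subset_univ _) v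
      rw [hG v, h2] at h3
      have h4 : dg G (univ \ S) v = 1 := by omega
      obtain ⟨g, hg⟩ := card_eq_one.1 h4
      have he : e ∈ S ∧ v ∈ G.ends e := by
        have : e ∈ ({e, f} : Finset E) := by simp
        rw [← h, mem_filter] at this
        exact this
      have hf : f ∈ S ∧ v ∈ G.ends f := by
        have : f ∈ ({e, f} : Finset E) := by simp
        rw [← h, mem_filter] at this
        exact this
      have hgS : g ∉ S ∧ v ∈ G.ends g := by
        have : g ∈ ({g} : Finset E) := by simp
        rw [← hg, mem_filter, mem_sdiff] at this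
        exact ⟨this.1.2, this.2⟩
      have heg : e ≠ g := fun h' => hgS.1 (h' ▸ he.1)
      have hfg : f ≠ g := fun h' => hgS.1 (h' ▸ hf.1)
      have hall : univ.filter (fun x => v ∈ G.ends x) = {e, f, g} := by
        ext x
        rw [mem_filter]
        constructor
        · rintro ⟨_, hx⟩
          by_cases hxS : x ∈ S
          · have : x ∈ ({e, f} : Finset E) := by rw [← h, mem_filter]; exact ⟨hxS, hx⟩
            rw [mem_insert, mem_singleton] at this
            rcases this with h5 | h5 <;> simp [h5]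
          · have : x ∈ ({g} : Finset E) := by
              rw [← hg, mem_filter, mem_sdiff]; exact ⟨⟨mem_univ _, hxS⟩, hx⟩
            rw [mem_singleton] at this
            simp [this]
        · intro hx
          rw [mem_insert, mem_insert, mem_singleton] at hx
          rcases hx with rfl | rfl | rfl
          · exact ⟨mem_univ _, he.2⟩
          · exact ⟨mem_univ _, hf.2⟩
          · exact ⟨mem_univ _, hgS.2⟩
      rw [dg_three G (X c) v e f g hef heg hfg hall]
      simp only [hXS c e he.1, hXS c f hf.1, hXN c g hgS.1]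
      apply even3
      have h5 := hsum Z hZf e f g hef heg hfg hall
      have h6 := hsum Y hY e f g hef heg hfg hall
      have h7 := lab_ne Z g (hnz g hgS.1)
      rw [lab_lam Z Y e (fun i => hY2 e he.1 i),
        lab_lam Z Y f (fun i => hY2 f hf.1 i)] at h6
      rw [h5, h6]
      rw [h5] at h7
      exact two_single _ _ c h7
  · intro e he
    simp only [hXS _ e he, decide_eq_true_eq]
    rw [Finset.filter_eq' univ (lab Z e), if_pos (mem_univ _), card_singleton]
  · intro e he
    simp only [hXN _ e he]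
    exact card_inS _ _ (hdot e he)

/-- The value of a flow along `S` does not change at a vertex whose edge outside `S` has value
zero. -/
theorem flow_along (G : MGraph V E) (S : Finset E) (al be : E → V) (hab : ∀ e, al e ≠ be e)
    (hends : ∀ e, G.ends e = s(al e, be e)) (ψ : E → F2) (hψ : IsFlow al be ψ) (v : V)
    (hv : dg G S v = 2) (h0 : ∀ e, e ∉ S → v ∈ G.ends e → ψ e = 0) (e f : E) (he : e ∈ S)
    (hf : f ∈ S) (hev : v ∈ G.ends e) (hfv : v ∈ G.ends f) : ψ e = ψ f := by
  classical
  by_cases hef : e = f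
  · rw [hef]
  have h1 := flow_at G al be hab hends ψ hψ v
  have h2 : ∑ x ∈ univ.filter (fun x => v ∈ G.ends x), ψ x =
      ∑ x ∈ S.filter (fun x => v ∈ G.ends x), ψ x := by
    symm
    apply Finset.sum_subset (filter_subset_filter _ (subset_univ S))
    intro x hx hx2
    rw [mem_filter] at hx hx2
    exact h0 x (fun h => hx2 ⟨h, hx.2⟩) hx.2
  have h3 : S.filter (fun x => v ∈ G.ends x) = {e, f} := by
    symm
    apply eq_of_subset_of_card_le
    · intro x hx
      rw [mem_insert, mem_singleton] at hx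
      rcases hx with rfl | rfl
      · exact mem_filter.2 ⟨he, hev⟩
      · exact mem_filter.2 ⟨hf, hfv⟩
    · rw [card_pair hef]
      unfold dg at hv
      omega
  rw [h2, h3, sum_pair hef] at h1
  exact CharTwo.add_eq_zero.1 h1

theorem prod_ne (p q r : F2) : p * q * r = 0 ∨ (p = 1 ∧ q = 1 ∧ r = 1) := by
  revert p q r; decide

/-- Eight even sets. -/
theorem eight (G : MGraph V E) (hG : IsCubic G) (S : Finset E)
    (hS : ∀ v, dg G S v = 0 ∨ dg G S v = 2) (A : Fin 3 → Finset E) (hA : ∀ i, Ev G (A i))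
    (hcov : ∀ e, e ∉ S → ∃ i, e ∈ A i) (n : V → Finset (Fin 3))
    (hn0 : ∀ v, dg G S v = 2 → (n v).Nonempty)
    (hn1 : ∀ e ∈ S, ∀ u ∈ G.ends e, ∀ v ∈ G.ends e, n u = n v)
    (hn2 : ∀ v, dg G S v = 2 → ∀ e, e ∉ S → v ∈ G.ends e →
      Even ((n v).filter fun i => e ∈ A i).card)
    (hn3 : ∀ e ∈ S, ∀ u ∈ G.ends e, ∀ v ∈ G.ends e, Relation.ReflTransGen
      (fun x y => ∃ f, f ∉ S ∧ Even ((n u).filter fun i => f ∈ A i).card ∧ G.ends f = s(x, y))
      u v) :
    ∃ X : T3 → Finset E, (∀ c, Ev G (X c)) ∧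
      (∀ e ∈ S, (univ.filter fun c => e ∈ X c).card = 1) ∧
      (∀ e, e ∉ S → (univ.filter fun c => e ∈ X c).card = 2) := by
  classical
  have hends' : ∀ e, ∃ u v, u ≠ v ∧ G.ends e = s(u, v) := fun e => exists_ends G e
  choose al be hab hends using hends'
  obtain ⟨Z, hZ⟩ : ∃ Z : Fin 3 → E → F2, Z = fun i e => if e ∈ A i then 1 else 0 := ⟨_, rfl⟩
  have hZf : ∀ i, IsFlow al be (Z i) := by
    intro i
    rw [hZ]
    exact ev_flow G al be hab hends _ (hA i)
  have hnz : ∀ e, e ∉ S → Z 0 e ≠ 0 ∨ Z 1 e ≠ 0 ∨ Z 2 e ≠ 0 := by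
    intro e he
    rw [hZ]
    obtain ⟨i, hi⟩ := hcov e he
    fin_cases i
    · left; simpa using hi
    · right; left; simpa using hi
    · right; right; simpa using hi
  have hpos : ∀ e ∈ S, ∀ u ∈ G.ends e, dg G S u = 2 := by
    intro e he u hu
    have := dg_pos_of_mem (G := G) he hu
    rcases hS u with h | h
    · omega
    · exact h
  have hae : ∀ e, al e ∈ G.ends e := fun e => by rw [hends e]; simp
  have hbe : ∀ e, be e ∈ G.ends e := fun e => by rw [hends e]; simp
  have hSe : Ev G S := fun v => by rcases hS v with h | h <;> rw [h] <;> decide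
  have hSf := ev_flow G al be hab hends S hSe
  -- the sum of the chosen coordinates
  have hsum : ∀ (m : Finset (Fin 3)) e, ∑ i ∈ m, Z i e = ((m.filter fun i => e ∈ A i).card : F2) := by
    intro m e
    rw [hZ, card_filter, Nat.cast_sum]
    refine Finset.sum_congr rfl fun i _ => ?_
    by_cases h : e ∈ A i <;> simp [h]
  have hsum0 : ∀ (m : Finset (Fin 3)) e, Even (m.filter fun i => e ∈ A i).card →
      ∑ i ∈ m, Z i e = 0 := by
    intro m e h
    rw [hsum]
    exact (even_iff_cast _).1 h
  have hflow : ∀ m : Finset (Fin 3), IsFlow al be (fun e => ∑ i ∈ m, Z i e) := by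
    intro m c
    simp only [Finset.sum_mul]
    rw [Finset.sum_comm]
    exact Finset.sum_eq_zero fun i _ => hZf i c
  -- an edge of `S` at each vertex of `S`
  have hpick : ∀ v, ∃ e, dg G S v = 2 → e ∈ S ∧ v ∈ G.ends e := by
    intro v
    by_cases hv : dg G S v = 2
    · have : 0 < dg G S v := by omega
      unfold dg at this
      rw [card_pos] at this
      obtain ⟨e, he⟩ := this
      rw [mem_filter] at he
      exact ⟨e, fun _ => he⟩
    · by_cases hE : Nonempty E
      · exact ⟨hE.some, fun h => absurd h hv⟩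
      · obtain ⟨e, _⟩ := card_pos.1 (show 0 < dg G univ v by rw [hG v]; omega)
        exact absurd ⟨e⟩ hE
  choose pk hpk using hpick
  have hmin : ∀ v, ∃ i : Fin 3, dg G S v = 2 → i ∈ n v := by
    intro v
    by_cases hv : dg G S v = 2
    · obtain ⟨i, hi⟩ := hn0 v hv
      exact ⟨i, fun _ => hi⟩
    · exact ⟨0, fun h => absurd h hv⟩
  -- the least chosen coordinate, a function of `n v`
  have hmin' : ∀ m : Finset (Fin 3), ∃ i : Fin 3, m.Nonempty → i ∈ m := by
    intro m
    by_cases hm : m.Nonempty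
    · exact ⟨hm.choose, fun _ => hm.choose_spec⟩
    · exact ⟨0, fun h => absurd h hm⟩
  choose mi hmi using hmin'
  obtain ⟨k, Y, hk, hY, hY1, hY2⟩ := liftG al be S hSf Z hZf hnz (by
    intro x hx _
    have hedge : ∀ m : Finset (Fin 3), ∀ e, e ∉ S → Even (m.filter fun i => e ∈ A i).card →
        ∀ u v, G.ends e = s(u, v) → ∑ i ∈ m, x i u = ∑ i ∈ m, x i v := by
      intro m e he hm u v huv
      obtain ⟨y, hy⟩ := hx e he
      have h1 : ∑ i ∈ m, x i (al e) + ∑ i ∈ m, x i (be e) = 0 := by
        rw [← Finset.sum_add_distrib]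
        simp only [← hy]
        rw [← Finset.mul_sum, hsum0 m e hm, mul_zero]
      have h2 := CharTwo.add_eq_zero.1 h1
      rw [hends e, Sym2.eq_iff] at huv
      rcases huv with ⟨rfl, rfl⟩ | ⟨rfl, rfl⟩
      · exact h2
      · exact h2.symm
    have hxe : ∀ e ∈ S, ∑ i ∈ n (al e), x i (al e) = ∑ i ∈ n (al e), x i (be e) := by
      intro e he
      have h1 := hn3 e he (al e) (hae e) (be e) (hbe e)
      generalize n (al e) = m at h1 ⊢
      generalize be e = v at h1 ⊢
      induction h1 with
      | refl => rfl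
      | tail _ h ih =>
        obtain ⟨f, hf, hm, huv⟩ := h
        rw [ih]
        exact hedge m f hf hm _ _ huv
    obtain ⟨val, hval⟩ : ∃ val : V → F2, val = fun v =>
      ∑ i ∈ n v, Z i (pk v) + ∑ i ∈ n v, x i v := ⟨_, rfl⟩
    have hvalS : ∀ v e, e ∈ S → v ∈ G.ends e →
        val v = ∑ i ∈ n v, Z i e + ∑ i ∈ n v, x i v := by
      intro v e he hv
      have h2 := hpos e he v hv
      obtain ⟨h3, h4⟩ := hpk v h2
      rw [hval]
      have h5 := flow_along G S al be hab hends (fun e => ∑ i ∈ n v, Z i e) (hflow (n v)) v h2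
        (fun f hf hfv => hsum0 _ _ (hn2 v h2 f hf hfv)) (pk v) e h3 he h4 hv
      simp only [h5]
    obtain ⟨c, hc⟩ : ∃ c : Fin 3 → V → F2, c = fun i v =>
      if i = mi (n v) then val v + ∑ i ∈ n v, (1 : F2) + 1 else 0 := ⟨_, rfl⟩
    have hnn : ∀ e ∈ S, n (al e) = n (be e) := fun e he => hn1 e he _ (hae e) _ (hbe e)
    have hvv : ∀ e ∈ S, val (al e) = val (be e) := by
      intro e he
      rw [hvalS (al e) e he (hae e), hvalS (be e) e he (hbe e), ← hnn e he, hxe e he]
    have hprod : ∀ v e, e ∈ S → v ∈ G.ends e →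
        (Z 0 e + x 0 v + c 0 v) * (Z 1 e + x 1 v + c 1 v) * (Z 2 e + x 2 v + c 2 v) = 0 := by
      intro v e he hv
      rcases prod_ne (Z 0 e + x 0 v + c 0 v) (Z 1 e + x 1 v + c 1 v) (Z 2 e + x 2 v + c 2 v) with
        h | ⟨h0, h1, h2⟩
      · exact h
      · exfalso
        have h3 : ∀ i, Z i e + x i v + c i v = 1 := by
          intro i
          fin_cases i
          · exact h0
          · exact h1
          · exact h2
        have h4 : ∑ i ∈ n v, (Z i e + x i v + c i v) = ∑ i ∈ n v, (1 : F2) :=
          Finset.sum_congr rfl fun i _ => h3 i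
        rw [Finset.sum_add_distrib, Finset.sum_add_distrib, ← hvalS v e he hv] at h4
        have h5 : ∑ i ∈ n v, c i v = val v + ∑ i ∈ n v, (1 : F2) + 1 := by
          rw [hc]
          simp only
          rw [Finset.sum_ite_eq' (n v) (mi (n v)), if_pos (hmi _ (hn0 v (hpos e he v hv)))]
        rw [h5] at h4
        generalize val v = p at h4
        generalize ∑ i ∈ n v, (1 : F2) = q at h4
        revert h4
        revert p q
        decide
    refine ⟨c, fun i e he => ?_, fun e he => ⟨hprod _ e he (hae e), hprod _ e he (hbe e)⟩⟩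
    rw [hc]
    simp only
    rw [hnn e he, hvv e he])
  -- shift along `S`
  have hshift : ∀ K : V → F2, (∀ e ∈ S, K (al e) = K (be e)) →
      IsFlow al be (fun e => if e ∈ S then K (al e) else 0) := by
    intro K hK c
    have h1 := hSf (fun v => K v * c v)
    refine Eq.trans (Finset.sum_congr rfl fun e _ => ?_) h1
    by_cases he : e ∈ S
    · simp only [if_pos he, ← hK e he]
      ring
    · simp only [if_neg he]
      ring
  have hadd : ∀ ψ φ : E → F2, IsFlow al be ψ → IsFlow al be φ →
      IsFlow al be (fun e => ψ e + φ e) := by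
    intro ψ φ h1 h2 c
    simp only [add_mul, Finset.sum_add_distrib]
    rw [h1 c, h2 c, add_zero]
  obtain ⟨Z', hZ'⟩ : ∃ Z' : Fin 3 → E → F2, Z' = fun i e =>
    Z i e + (if e ∈ S then k i (al e) else 0) := ⟨_, rfl⟩
  obtain ⟨Y', hY'⟩ : ∃ Y' : Fin 3 → E → F2, Y' = fun i e =>
    Y i e + (if e ∈ S then lamc (fun j => k j (al e)) i else 0) := ⟨_, rfl⟩
  refine eight_core G hG S hS al be hab hends Z' Y' ?_ ?_ ?_ ?_ ?_
  · intro i
    rw [hZ']
    exact hadd _ _ (hZf i) (hshift (k i) (hk i))
  · intro i
    rw [hY']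
    exact hadd _ _ (hY i) (hshift (fun v => lamc (fun j => k j v) i) (fun e he => by
      simp only [hk _ e he]))
  · intro e he
    rw [hZ']
    simp only [if_neg he, add_zero]
    exact hnz e he
  · intro e he
    rw [hZ', hY']
    simp only [if_neg he, add_zero]
    exact hY1 e he
  · intro e he i
    have h1 := hY2 e he i
    rw [hY', hZ']
    simp only [if_pos he]
    rw [lamc_add, ← h1]
    have h2 := CharTwo.add_self_eq_zero (crs (fun j => Z j e) (fun j => k j (al e)) i)
    linear_combination -h2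

end Pool.Agent.H46.CDCS
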