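import Pool.Graph.R_seed8.Results.MP_0c3aa4_co.FewOddParts

set_option autoImplicit false
set_option linter.unusedSectionVars false

/-!
Two even sets covering all edges outside a 2-regular edge set with few odd classes, and double
covers from families of even sets.
-/

namespace Pool.Agent.H46.CDCS

open Finset
open Pool.Agent.Helper347.Sab hiding F2
open Pool.Agent.Helper998.Near (Rch rch_symm even_iff_cast)
open Pool.Agent.V11198.Six
open Pool.Agent.TH362.TF (NZ PQ N1 IsPQ Cons Joins)

variable {V E : Type} [Fintype V] [DecidableEq V] [Fintype E] [DecidableEq E]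

/-- The flows (compare `Pool.Agent.V11198.Six.four_of_reg`). -/
theorem flows_of_reg (G : MGraph V E) (S : Finset E)
    (hb : ∀ e, ∃ D, Ev G D ∧ e ∈ D)
    (al be : E → V) (hab : ∀ e, al e ≠ be e) (hends : ∀ e, G.ends e = s(al e, be e))
    (κ : V → V) (hκr : ∀ v, Rch G S v (κ v)) (hκ : ∀ u v, κ u = κ v ↔ Rch G S u v)
    (h16 : (univ.filter fun x => κ x = x ∧
      Odd (∑ v ∈ univ.filter (fun v => κ v = x), dg G univ v)).card ≤ 16)
    (hPQ : ∀ c : V → Fin 10, ¬ IsPQ (κ ∘ al) (κ ∘ be) (univ \ S) c) :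
    ∃ A B : Finset E, Ev G A ∧ Ev G B ∧ ∀ e, e ∉ S → e ∈ A ∨ e ∈ B := by
  classical
  by_cases hV : Nonempty V
  swap
  · exact ⟨∅, ∅, fun v => absurd ⟨v⟩ hV, fun v => absurd ⟨v⟩ hV, fun e => absurd ⟨al e⟩ hV⟩
  obtain ⟨v0⟩ := hV
  have hκS : ∀ e ∈ S, κ (al e) = κ (be e) := fun e he =>
    (hκ _ _).2 (Relation.ReflTransGen.single ⟨e, he, hends e⟩)
  have hpar : ∀ (D : Finset E) (x : V), (Even (∑ e ∈ D \ S, en κ al be e x) ↔
      Even (∑ v ∈ univ.filter (fun v => κ v = x), dg G D v)) := by
    intro D x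
    rw [sum_dg_class G al be hab hends κ D x]
    have h1 : ∑ e ∈ D, en κ al be e x =
        ∑ e ∈ D \ S, en κ al be e x + ∑ e ∈ D ∩ S, en κ al be e x := by
      rw [← sum_union (disjoint_of_subset_right inter_subset_right sdiff_disjoint),
        sdiff_union_inter]
    have h2 : Even (∑ e ∈ D ∩ S, en κ al be e x) := by
      apply Finset.even_sum
      intro e he
      unfold en
      rw [hκS e (mem_inter.1 he).2]
      split_ifs <;> decide
    rw [h1, Nat.even_add]
    simp [h2]
  have hN1 : N1 (κ ∘ al) (κ ∘ be) (univ \ S) := by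
    apply n1_of (κ ∘ al) (κ ∘ be) (univ \ S) v0
    intro e he
    obtain ⟨D, hD, heD⟩ := hb e
    refine ⟨D \ S, sdiff_subset_sdiff (subset_univ _) le_rfl,
      mem_sdiff.2 ⟨heD, (mem_sdiff.1 he).2⟩, fun v _ => ?_⟩
    rw [deg_def, hpar D v]
    apply Finset.even_sum
    intro w _
    exact hD w
  have hodd : (TH362.TF.odd (κ ∘ al) (κ ∘ be) (univ \ S)).card ≤ 16 := by
    refine le_trans (card_le_card ?_) h16
    intro x hx
    unfold TH362.TF.odd at hx
    rw [mem_filter] at hx
    have hx2 := hx.2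
    rw [deg_def] at hx2
    have h1 : Odd (∑ v ∈ univ.filter (fun v => κ v = x), dg G univ v) := by
      rw [← Nat.not_even_iff_odd, ← hpar univ x, Nat.not_even_iff_odd]
      exact hx2
    rw [mem_filter]
    refine ⟨mem_univ _, ?_, h1⟩
    obtain ⟨w, hw⟩ : (univ.filter (fun v => κ v = x)).Nonempty := by
      rw [nonempty_iff_ne_empty]
      intro h
      rw [h, sum_empty] at h1
      exact absurd h1 (by decide)
    have hwx := (mem_filter.1 hw).2
    have h2 := (hκ w (κ w)).2 (hκr w)
    rw [hwx] at h2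
    exact h2.symm
  obtain ⟨φ, hφ1, hφ2⟩ : NZ (κ ∘ al) (κ ∘ be) (univ \ S) := by
    rcases TH362.TF.main16 (κ ∘ al) (κ ∘ be) (univ \ S) hN1 hodd with h | ⟨c, hc⟩
    · exact h
    · exact absurd hc (hPQ c)
  have hdis : ∀ (p : E → Prop) [DecidablePred p], Disjoint S ((univ \ S).filter p) := by
    intro p _
    rw [disjoint_left]
    intro e he h
    exact (mem_sdiff.1 (mem_filter.1 h).1).2 he
  obtain ⟨JA, hJA, hA⟩ := complete G al be hab hends S κ hκr
    ((univ \ S).filter (fun e => (φ e).1 = 1)) (hdis _) (even_coord κ al be (univ \ S)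
      (fun e => (φ e).1) (fun x => by
        have h3 := congrArg Prod.fst (hφ2 x)
        rw [Prod.fst_sum] at h3
        refine Eq.trans (Finset.sum_congr rfl fun e _ => ?_) h3
        split_ifs <;> rfl))
  obtain ⟨JB, hJB, hB⟩ := complete G al be hab hends S κ hκr
    ((univ \ S).filter (fun e => (φ e).2 = 1)) (hdis _) (even_coord κ al be (univ \ S)
      (fun e => (φ e).2) (fun x => by
        have h3 := congrArg Prod.snd (hφ2 x)
        rw [Prod.snd_sum] at h3
        refine Eq.trans (Finset.sum_congr rfl fun e _ => ?_) h3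
        split_ifs <;> rfl))
  refine ⟨_, _, hA, hB, fun e he => ?_⟩
  have hfK : e ∈ univ \ S := mem_sdiff.2 ⟨mem_univ _, he⟩
  have h0 := hφ1 e hfK
  have h4 : (φ e).1 = 1 ∨ (φ e).2 = 1 := by
    revert h0
    generalize φ e = y
    revert y
    decide
  rcases h4 with h4 | h4
  · exact Or.inl (mem_union_left _ (mem_filter.2 ⟨hfK, h4⟩))
  · exact Or.inr (mem_union_left _ (mem_filter.2 ⟨hfK, h4⟩))

/-- `S` and a family of even sets give a double cover containing the circuits of `S`
(compare `Pool.Agent.V11198.Six.cdc_of_four`). -/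
theorem cdc_of_family (G : MGraph V E) (hG : IsCubic G) (S : Finset E)
    (hS : ∀ v, dg G S v = 0 ∨ dg G S v = 2) {ι : Type} [Fintype ι] (X : ι → Finset E)
    (h1 : ∀ i, Ev G (X i)) (h2 : ∀ e ∈ S, (univ.filter fun i => e ∈ X i).card = 1)
    (h3 : ∀ e, e ∉ S → (univ.filter fun i => e ∈ X i).card = 2) :
    ∃ F : Finset (Finset E),
      Pool.Agent.Results.MP_0c3aa4_co.ThroughDominating.IsCycleDoubleCover G F ∧
      ∀ C, IsCircuit G C → C ⊆ S → C ∈ F := by
  classical
  choose T hT1 hT2 using fun i => Pool.Agent.W831.HI.decompose_ev G (X i) (h1 i)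
  obtain ⟨N, hN1, hN2⟩ := decompose G _ S le_rfl hS
  obtain ⟨F, hF⟩ : ∃ F, F = N + ∑ i, T i := ⟨_, rfl⟩
  have g1 : ∀ Y ∈ F, IsCircuit G Y := by
    intro Y hY
    rw [hF, Multiset.mem_add] at hY
    rcases hY with h | h
    · exact hN1 Y h
    · rw [Multiset.mem_sum] at h
      obtain ⟨i, _, hi⟩ := h
      exact hT1 i Y hi
  have g2 : ∀ e, F.countP (e ∈ ·) = 2 := by
    intro e
    rw [hF, Multiset.countP_add, hN2, Pool.Agent.W831.HI.countP_sum,
      sum_congr rfl fun i _ => hT2 i e, ← card_filter]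
    by_cases h5 : e ∈ S
    · rw [if_pos h5, h2 e h5]
    · rw [if_neg h5, h3 e h5]
  have g3 : ∀ D, IsCircuit G D → D ⊆ S → D ∈ F := by
    intro D hD hDS
    rw [hF, Multiset.mem_add]
    left
    obtain ⟨e, he⟩ := hD.1
    have h4 := hN2 e
    rw [if_pos (hDS he)] at h4
    obtain ⟨X, hX, heX⟩ := Multiset.countP_pos.1 (by rw [h4]; norm_num : 0 < N.countP (e ∈ ·))
    have hXS : X ⊆ S := by
      intro f hf
      by_contra hcon
      have h5 := hN2 f
      rw [if_neg hcon] at h5
      exact absurd (Multiset.countP_pos.2 ⟨X, hX, hf⟩) (by rw [h5]; norm_num)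
    have hcl : ∀ (A B : Finset E), IsCircuit G A → IsCircuit G B → A ⊆ S → B ⊆ S → e ∈ A →
        e ∈ B → A ⊆ B := by
      intro A B hA hB hAS hBS heA heB f hf
      have := hA.2.2 e heA f hf
      induction this with
      | refl => exact heB
      | tail h6 h7 ih =>
        rename_i a b
        have haA : a ∈ A := by
          rcases Relation.ReflTransGen.cases_tail h6 with h | ⟨c, _, h⟩
          · rw [h]; exact heA
          · exact h.1
        have haB := ih haA
        obtain ⟨v, hva, hvb⟩ := h7.2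
        have hBv : dg G B v = 2 :=
          (hB.2.1 v).resolve_left (by have := dg_pos_of_mem (G := G) haB hva; omega)
        have hSv : dg G S v = 2 := by
          have h8 := dg_mono (G := G) hBS v
          rcases hS v with h | h
          · omega
          · exact h
        have heq : (B.filter fun e => v ∈ G.ends e) = S.filter fun e => v ∈ G.ends e := by
          apply eq_of_subset_of_card_le (filter_subset_filter _ hBS)
          unfold dg at hBv hSv
          omega
        have : b ∈ S.filter fun e => v ∈ G.ends e := mem_filter.2 ⟨hAS h7.1, hvb⟩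
        rw [← heq, mem_filter] at this
        exact this.1
    have : D = X := Subset.antisymm (hcl D X hD (hN1 X hX) hDS hXS he heX)
      (hcl X D (hN1 X hX) hD hXS hDS heX he)
    rw [this]
    exact hX
  have hnd := Pool.Agent.Results.MP_0c3aa4_co.ThroughDominating.nodup_cover G hG F g1 g2
  refine ⟨⟨F, hnd⟩, ⟨fun X hX => g1 X hX, fun e => ?_⟩, fun C hC hCS => g3 C hC hCS⟩
  rw [← g2 e, Multiset.countP_eq_card_filter]
  rfl

end Pool.Agent.H46.CDCS
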