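import Pool.Graph.R_seed8.H126R2.CDC.Tab
import Pool.Graph.R_seed8.TH362.TF.Defs

set_option autoImplicit false
set_option linter.unusedSectionVars false

/-!
A cycle double cover of the Petersen graph by labels, and permutations of the colours.
-/

namespace Pool.Agent.H46.CDCS

open Finset
open Pool.Agent.H126R2.CDC (T3)
open Pool.Agent.TH362.TF (nb padj)

/-- the pair of colours of the edge `k l` of the Petersen graph -/
def pcol (k l : Fin 10) : T3 × T3 :=
  match k, l with
  | 0, 1 => ((false, false, false), (true, false, false))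
  | 1, 0 => ((false, false, false), (true, false, false))
  | 0, 4 => ((false, false, false), (false, true, false))
  | 4, 0 => ((false, false, false), (false, true, false))
  | 0, 5 => ((true, false, false), (false, true, false))
  | 5, 0 => ((true, false, false), (false, true, false))
  | 1, 2 => ((false, false, false), (false, true, false))
  | 2, 1 => ((false, false, false), (false, true, false))
  | 1, 6 => ((true, false, false), (false, true, false))
  | 6, 1 => ((true, false, false), (false, true, false))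
  | 2, 3 => ((false, false, false), (true, true, false))
  | 3, 2 => ((false, false, false), (true, true, false))
  | 2, 7 => ((false, true, false), (true, true, false))
  | 7, 2 => ((false, true, false), (true, true, false))
  | 3, 4 => ((false, false, false), (false, false, true))
  | 4, 3 => ((false, false, false), (false, false, true))
  | 3, 8 => ((true, true, false), (false, false, true))
  | 8, 3 => ((true, true, false), (false, false, true))
  | 4, 9 => ((false, true, false), (false, false, true))
  | 9, 4 => ((false, true, false), (false, false, true))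
  | 5, 7 => ((true, false, false), (true, true, false))
  | 7, 5 => ((true, false, false), (true, true, false))
  | 5, 8 => ((false, true, false), (true, true, false))
  | 8, 5 => ((false, true, false), (true, true, false))
  | 6, 8 => ((false, true, false), (false, false, true))
  | 8, 6 => ((false, true, false), (false, false, true))
  | 6, 9 => ((true, false, false), (false, false, true))
  | 9, 6 => ((true, false, false), (false, false, true))
  | 7, 9 => ((true, false, false), (false, true, false))
  | 9, 7 => ((true, false, false), (false, true, false))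
  | _, _ => ((false, false, false), (false, false, false))

/-- the colour `c` belongs to the edge `k l` -/
def pm (k l : Fin 10) (c : T3) : Bool := decide (c = (pcol k l).1) || decide (c = (pcol k l).2)

theorem pm_symm : ∀ k l c, pm k l c = pm l k c := by decide +kernel

theorem pm_par : ∀ k c, xor (xor (pm k (nb k 0) c) (pm k (nb k 1) c)) (pm k (nb k 2) c) = false := by
  decide +kernel

theorem pm_card : ∀ k j, (univ.filter fun c => pm k (nb k j) c = true).card = 2 := by
  decide +kernel

/-- three pairs of colours which cover every colour an even number of times form a triangle -/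
theorem triangle (P : Fin 3 → T3 → Bool)
    (hc : ∀ j, (univ.filter fun c => P j c = true).card = 2)
    (hp : ∀ c, xor (xor (P 0 c) (P 1 c)) (P 2 c) = false) :
    ∃ p q r : T3, p ≠ q ∧ p ≠ r ∧ q ≠ r ∧ (∀ c, P 0 c = true ↔ c = p ∨ c = q) ∧
      (∀ c, P 1 c = true ↔ c = q ∨ c = r) ∧ (∀ c, P 2 c = true ↔ c = p ∨ c = r) := by
  classical
  obtain ⟨A, hA⟩ : ∃ A : Finset T3, A = univ.filter fun c => P 0 c = true := ⟨_, rfl⟩
  obtain ⟨B, hB⟩ : ∃ B : Finset T3, B = univ.filter fun c => P 1 c = true := ⟨_, rfl⟩
  obtain ⟨C, hC⟩ : ∃ C : Finset T3, C = univ.filter fun c => P 2 c = true := ⟨_, rfl⟩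
  have mA : ∀ c, c ∈ A ↔ P 0 c = true := by intro c; rw [hA, mem_filter]; simp
  have mB : ∀ c, c ∈ B ↔ P 1 c = true := by intro c; rw [hB, mem_filter]; simp
  have mC : ∀ c, c ∈ C ↔ P 2 c = true := by intro c; rw [hC, mem_filter]; simp
  have cA : A.card = 2 := by rw [hA]; exact hc 0
  have cB : B.card = 2 := by rw [hB]; exact hc 1
  have cC : C.card = 2 := by rw [hC]; exact hc 2
  have hCe : C = (A \ B) ∪ (B \ A) := by
    ext c
    rw [mem_union, mem_sdiff, mem_sdiff, mA, mB, mC]
    have := hp c
    revert this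
    generalize P 0 c = x
    generalize P 1 c = y
    generalize P 2 c = z
    revert x y z
    decide
  have h1 := card_sdiff_add_card_inter A B
  have h2 := card_sdiff_add_card_inter B A
  rw [inter_comm B A] at h2
  have h3 : C.card = (A \ B).card + (B \ A).card := by
    rw [hCe, card_union_of_disjoint]
    rw [disjoint_left]
    intro c hc1 hc2
    rw [mem_sdiff] at hc1 hc2
    exact hc1.2 hc2.1
  have h4 : (A \ B).card = 1 := by omega
  have h5 : (B \ A).card = 1 := by omega
  have h6 : (A ∩ B).card = 1 := by omega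
  obtain ⟨p, hp1⟩ := card_eq_one.1 h4
  obtain ⟨r, hr1⟩ := card_eq_one.1 h5
  obtain ⟨q, hq1⟩ := card_eq_one.1 h6
  have ep : ∀ c, c = p ↔ c ∈ A ∧ c ∉ B := by
    intro c; rw [← mem_sdiff, hp1, mem_singleton]
  have er : ∀ c, c = r ↔ c ∈ B ∧ c ∉ A := by
    intro c; rw [← mem_sdiff, hr1, mem_singleton]
  have eq' : ∀ c, c = q ↔ c ∈ A ∧ c ∈ B := by
    intro c; rw [← mem_inter, hq1, mem_singleton]
  have fp := (ep p).1 rfl
  have fr := (er r).1 rfl
  have fq := (eq' q).1 rfl
  refine ⟨p, q, r, ?_, ?_, ?_, ?_, ?_, ?_⟩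
  · intro h; rw [h] at fp; exact fp.2 fq.2
  · intro h; rw [h] at fp; exact fr.2 fp.1
  · intro h; rw [h] at fq; exact fr.2 fq.1
  · intro c
    rw [← mA, ep, eq']
    tauto
  · intro c
    rw [← mB, er, eq']
    tauto
  · intro c
    rw [← mC, hCe, mem_union, mem_sdiff, mem_sdiff, ep, er]

/-- a permutation with three prescribed values -/
theorem perm3 {α : Type} [DecidableEq α] (p q r p' q' r' : α) (h1 : p ≠ q) (h2 : p ≠ r)
    (h3 : q ≠ r) (h1' : p' ≠ q') (h2' : p' ≠ r') (h3' : q' ≠ r') :
    ∃ σ : Equiv.Perm α, σ p = p' ∧ σ q = q' ∧ σ r = r' := by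
  obtain ⟨σ1, hσ1⟩ : ∃ σ1 : Equiv.Perm α, σ1 p = p' := ⟨Equiv.swap p p', Equiv.swap_apply_left _ _⟩
  obtain ⟨σ2, hσ2, hσ2'⟩ : ∃ σ2 : Equiv.Perm α, σ2 p = p' ∧ σ2 q = q' := by
    refine ⟨σ1.trans (Equiv.swap (σ1 q) q'), ?_, ?_⟩
    · show Equiv.swap (σ1 q) q' (σ1 p) = p'
      rw [hσ1]
      apply Equiv.swap_apply_of_ne_of_ne
      · intro h
        rw [← hσ1] at h
        exact h1 (σ1.injective h)
      · exact h1'
    · exact Equiv.swap_apply_left _ _
  refine ⟨σ2.trans (Equiv.swap (σ2 r) r'), ?_, ?_, ?_⟩
  · show Equiv.swap (σ2 r) r' (σ2 p) = p'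
    rw [hσ2]
    apply Equiv.swap_apply_of_ne_of_ne
    · intro h
      rw [← hσ2] at h
      exact h2 (σ2.injective h)
    · exact h2'
  · show Equiv.swap (σ2 r) r' (σ2 q) = q'
    rw [hσ2']
    apply Equiv.swap_apply_of_ne_of_ne
    · intro h
      rw [← hσ2'] at h
      exact h3 (σ2.injective h)
    · exact h3'
  · exact Equiv.swap_apply_left _ _

theorem match_perm (P Q : Fin 3 → T3 → Bool)
    (hc : ∀ j, (univ.filter fun c => P j c = true).card = 2)
    (hp : ∀ c, xor (xor (P 0 c) (P 1 c)) (P 2 c) = false)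
    (hc' : ∀ j, (univ.filter fun c => Q j c = true).card = 2)
    (hp' : ∀ c, xor (xor (Q 0 c) (Q 1 c)) (Q 2 c) = false) :
    ∃ σ : Equiv.Perm T3, ∀ j c, (Q j (σ c) = true ↔ P j c = true) := by
  obtain ⟨p, q, r, h1, h2, h3, h4, h5, h6⟩ := triangle P hc hp
  obtain ⟨p', q', r', g1, g2, g3, g4, g5, g6⟩ := triangle Q hc' hp'
  obtain ⟨σ, s1, s2, s3⟩ := perm3 p q r p' q' r' h1 h2 h3 g1 g2 g3
  refine ⟨σ, fun j c => ?_⟩
  fin_cases j
  · show Q 0 (σ c) = true ↔ P 0 c = true
    rw [g4, h4, ← s1, ← s2, σ.injective.eq_iff, σ.injective.eq_iff]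
  · show Q 1 (σ c) = true ↔ P 1 c = true
    rw [g5, h5, ← s2, ← s3, σ.injective.eq_iff, σ.injective.eq_iff]
  · show Q 2 (σ c) = true ↔ P 2 c = true
    rw [g6, h6, ← s1, ← s3, σ.injective.eq_iff, σ.injective.eq_iff]

end Pool.Agent.H46.CDCS
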