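import Pool.Graph.R_seed8.Results.MP_0c3aa4_co.FewOddParts

set_option autoImplicit false
set_option linter.unusedSectionVars false

/-!
Nowhere-zero 4-flows of the contractions of a graph with a Petersen quotient.
-/

namespace Pool.Agent.H46.CDCS

open Finset
open Pool.Agent.Helper347.Sab hiding F2
open Pool.Agent.Helper998.Near (Rch rch_symm even_iff_cast join)
open Pool.Agent.V11198.Six
open Pool.Agent.TH362.TF (NZ PQ N1 IsPQ Cons Joins)

variable {V E : Type} [Fintype V] [DecidableEq V] [Fintype E] [DecidableEq E]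

/-- completion inside `R`, at the vertices of `U` -/
theorem complete' (G : MGraph V E) (al be : E → V) (hab : ∀ e, al e ≠ be e)
    (hends : ∀ e, G.ends e = s(al e, be e)) (R : Finset E) (κ : V → V)
    (hκr : ∀ v, Rch G R v (κ v)) (U : Finset V) (hU : ∀ v, v ∈ U ↔ κ v ∈ U) (p : V) (hp : p ∉ U)
    (κ' : V → V) (hκ' : ∀ v, κ' v = if v ∈ U then κ v else p) (M : Finset E) (hRM : Disjoint R M)
    (hM : ∀ x, Even (∑ e ∈ M, en κ' al be e x)) :
    ∃ J ⊆ R, ∀ v ∈ U, Even (dg G (M ∪ J) v) := by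
  classical
  obtain ⟨J, hJR, hJ⟩ := join G R (fun v => if v ∈ U then ((dg G M v : ℕ) : ZMod 2) else 0) κ
    (fun v _ => hκr v)
  have hJ' : ∀ x ∈ U, ((dg G J x : ℕ) : ZMod 2) = ((dg G M x : ℕ) : ZMod 2) := by
    intro x hx
    rw [hJ x, if_pos hx]
    have h1 : ∑ v, (if x = κ v then (if v ∈ U then ((dg G M v : ℕ) : ZMod 2) else 0) else 0) = 0 := by
      have h2 : ∑ v, (if x = κ v then (if v ∈ U then ((dg G M v : ℕ) : ZMod 2) else 0) else 0) =
          ((∑ v ∈ univ.filter (fun v => κ' v = x), dg G M v : ℕ) : ZMod 2) := by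
        rw [Nat.cast_sum, sum_filter]
        refine sum_congr rfl fun v _ => ?_
        by_cases h : v ∈ U
        · rw [if_pos h, hκ', if_pos h]
          by_cases h' : κ v = x
          · rw [if_pos h'.symm, if_pos h']
          · rw [if_neg (fun h'' => h' h''.symm), if_neg h']
        · rw [if_neg h, hκ', if_neg h, if_neg (fun h'' : p = x => hp (h'' ▸ hx)), ite_self]
      rw [h2, sum_dg_class G al be hab hends κ' M x]
      exact (even_iff_cast _).1 (hM x)
    rw [h1, add_zero]
  refine ⟨J, hJR, fun v hv => ?_⟩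
  have h1 := dg_sdiff (G := G) (X := M ∪ J) (Y := M) subset_union_left v
  have h3 : (M ∪ J) \ M = J := by
    rw [union_sdiff_left]
    exact sdiff_eq_self_of_disjoint (disjoint_of_subset_left hJR hRM)
  rw [h3] at h1
  rw [even_iff_cast, ← h1, Nat.cast_add, hJ' v hv]
  exact CharTwo.add_self_eq_zero _

/-- The flows of a piece. -/
theorem flows_piece (G : MGraph V E) (R : Finset E) (hb : ∀ e, ∃ D, Ev G D ∧ e ∈ D)
    (al be : E → V) (hab : ∀ e, al e ≠ be e) (hends : ∀ e, G.ends e = s(al e, be e))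
    (κ : V → V) (hκr : ∀ v, Rch G R v (κ v)) (hκ : ∀ u v, κ u = κ v ↔ Rch G R u v)
    (U : Finset V) (hU : ∀ v, v ∈ U ↔ κ v ∈ U) (p : V) (hp : p ∉ U)
    (κ' : V → V) (hκ' : ∀ v, κ' v = if v ∈ U then κ v else p)
    (h16 : (TH362.TF.odd (κ' ∘ al) (κ' ∘ be) (univ \ R)).card ≤ 16)
    (hPQ : ∀ c : V → Fin 10, ¬ IsPQ (κ' ∘ al) (κ' ∘ be) (univ \ R) c) :
    ∃ A B : Finset E, (∀ v ∈ U, Even (dg G A v)) ∧ (∀ v ∈ U, Even (dg G B v)) ∧
      ∀ e, e ∉ R → e ∈ A ∨ e ∈ B := by
  classical
  have hκS : ∀ e ∈ R, κ (al e) = κ (be e) := fun e he =>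
    (hκ _ _).2 (Relation.ReflTransGen.single ⟨e, he, hends e⟩)
  have hκ'S : ∀ e ∈ R, κ' (al e) = κ' (be e) := by
    intro e he
    have h1 : al e ∈ U ↔ be e ∈ U := by rw [hU (al e), hU (be e), hκS e he]
    rw [hκ', hκ']
    by_cases h : al e ∈ U
    · rw [if_pos h, if_pos (h1.1 h), hκS e he]
    · rw [if_neg h, if_neg (fun h' => h (h1.2 h'))]
  have hpar : ∀ (D : Finset E) (x : V), (Even (∑ e ∈ D \ R, en κ' al be e x) ↔
      Even (∑ v ∈ univ.filter (fun v => κ' v = x), dg G D v)) := by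
    intro D x
    rw [sum_dg_class G al be hab hends κ' D x]
    have h1 : ∑ e ∈ D, en κ' al be e x =
        ∑ e ∈ D \ R, en κ' al be e x + ∑ e ∈ D ∩ R, en κ' al be e x := by
      rw [← sum_union (disjoint_of_subset_right inter_subset_right sdiff_disjoint),
        sdiff_union_inter]
    have h2 : Even (∑ e ∈ D ∩ R, en κ' al be e x) := by
      apply Finset.even_sum
      intro e he
      unfold en
      rw [hκ'S e (mem_inter.1 he).2]
      split_ifs <;> decide
    rw [h1, Nat.even_add]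
    simp [h2]
  have hN1 : N1 (κ' ∘ al) (κ' ∘ be) (univ \ R) := by
    apply n1_of (κ' ∘ al) (κ' ∘ be) (univ \ R) p
    intro e he
    obtain ⟨D, hD, heD⟩ := hb e
    refine ⟨D \ R, sdiff_subset_sdiff (subset_univ _) le_rfl,
      mem_sdiff.2 ⟨heD, (mem_sdiff.1 he).2⟩, fun v _ => ?_⟩
    rw [deg_def, hpar D v]
    apply Finset.even_sum
    intro w _
    exact hD w
  obtain ⟨φ, hφ1, hφ2⟩ : NZ (κ' ∘ al) (κ' ∘ be) (univ \ R) := by
    rcases TH362.TF.main16 (κ' ∘ al) (κ' ∘ be) (univ \ R) hN1 h16 with h | ⟨c, hc⟩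
    · exact h
    · exact absurd hc (hPQ c)
  have hdis : ∀ (q : E → Prop) [DecidablePred q], Disjoint R ((univ \ R).filter q) := by
    intro q _
    rw [disjoint_left]
    intro e he h
    exact (mem_sdiff.1 (mem_filter.1 h).1).2 he
  obtain ⟨JA, hJA, hA⟩ := complete' G al be hab hends R κ hκr U hU p hp κ' hκ'
    ((univ \ R).filter (fun e => (φ e).1 = 1)) (hdis _) (even_coord κ' al be (univ \ R)
      (fun e => (φ e).1) (fun x => by
        have h3 := congrArg Prod.fst (hφ2 x)
        rw [Prod.fst_sum] at h3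
        refine Eq.trans (Finset.sum_congr rfl fun e _ => ?_) h3
        split_ifs <;> rfl))
  obtain ⟨JB, hJB, hB⟩ := complete' G al be hab hends R κ hκr U hU p hp κ' hκ'
    ((univ \ R).filter (fun e => (φ e).2 = 1)) (hdis _) (even_coord κ' al be (univ \ R)
      (fun e => (φ e).2) (fun x => by
        have h3 := congrArg Prod.snd (hφ2 x)
        rw [Prod.snd_sum] at h3
        refine Eq.trans (Finset.sum_congr rfl fun e _ => ?_) h3
        split_ifs <;> rfl))
  refine ⟨_, _, hA, hB, fun e he => ?_⟩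
  have hfK : e ∈ univ \ R := mem_sdiff.2 ⟨mem_univ _, he⟩
  have h0 := hφ1 e hfK
  have h4 : (φ e).1 = 1 ∨ (φ e).2 = 1 := by
    revert h0
    generalize φ e = y
    revert y
    decide
  rcases h4 with h4 | h4
  · exact Or.inl (mem_union_left _ (mem_filter.2 ⟨hfK, h4⟩))
  · exact Or.inr (mem_union_left _ (mem_filter.2 ⟨hfK, h4⟩))

/-- each class of a Petersen quotient contains a vertex of odd degree -/
theorem pq_odd (s t : E → V) (K : Finset E) (c : V → Fin 10) (h : IsPQ s t K c) (l : Fin 10) :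
    ∃ x, c x = l ∧ x ∈ TH362.TF.odd s t K := by
  classical
  by_contra hcon
  push Not at hcon
  have h1 : Even (∑ x ∈ univ.filter (fun x => c x = l), TH362.TF.deg s t K x) := by
    apply Finset.even_sum
    intro x hx
    have h2 := hcon x (mem_filter.1 hx).2
    unfold TH362.TF.odd at h2
    rw [mem_filter] at h2
    rw [← Nat.not_odd_iff_even]
    exact fun h3 => h2 ⟨mem_univ _, h3⟩
  have h2 : ∑ x ∈ univ.filter (fun x => c x = l), TH362.TF.deg s t K x =
      ∑ e ∈ K, ((if c (s e) = l then 1 else 0) + (if c (t e) = l then 1 else 0)) := by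
    unfold TH362.TF.deg
    rw [sum_comm]
    refine sum_congr rfl fun e _ => ?_
    rw [sum_add_distrib, sum_filter, sum_filter]
    congr 1
    · rw [Finset.sum_eq_single (s e)]
      · simp
      · intro b _ hb
        simp [Ne.symm hb]
      · intro hh; exact absurd (mem_univ _) hh
    · rw [Finset.sum_eq_single (t e)]
      · simp
      · intro b _ hb
        simp [Ne.symm hb]
      · intro hh; exact absurd (mem_univ _) hh
  rw [h2, ← Nat.not_odd_iff_even, Finset.odd_sum_iff_odd_card_odd] at h1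
  apply h1
  have h3 : (K.filter fun e => Odd ((if c (s e) = l then 1 else 0) +
      (if c (t e) = l then 1 else 0) : ℕ)) =
      TH362.TF.cut s t K (fun v => decide (c v = l)) := by
    unfold TH362.TF.cut
    apply filter_congr
    intro e _
    by_cases h4 : c (s e) = l <;> by_cases h5 : c (t e) = l <;> simp [h4, h5] <;> decide
  rw [h3, h.1 l]
  decide

/-- no Petersen quotient with fewer than ten vertices of odd degree -/
theorem no_pq_odd (s t : E → V) (K : Finset E) (h9 : (TH362.TF.odd s t K).card ≤ 9)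
    (c : V → Fin 10) : ¬ IsPQ s t K c := by
  classical
  intro h
  have h1 : (univ : Finset (Fin 10)) ⊆ (TH362.TF.odd s t K).image c := by
    intro l _
    obtain ⟨x, hx, hx'⟩ := pq_odd s t K c h l
    exact mem_image.2 ⟨x, hx', hx⟩
  have h2 := card_le_card h1
  rw [card_univ, Fintype.card_fin] at h2
  have h3 : ((TH362.TF.odd s t K).image c).card ≤ (TH362.TF.odd s t K).card := card_image_le
  omega

end Pool.Agent.H46.CDCS
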