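import Pool.Agent.H46.CDCS.Piece
import Pool.Agent.H46.CDCS.Pet
import Pool.Agent.H46.CDCS.PieceFlow

set_option autoImplicit false
set_option linter.unusedSectionVars false

/-!
Eight even sets for a graph with a Petersen quotient and at most sixteen odd classes.
-/

namespace Pool.Agent.H46.CDCS

open Finset
open Pool.Agent.Helper347.Sab hiding F2
open Pool.Agent.Helper998.Near (Rch rch_symm even_iff_cast)
open Pool.Agent.V11198.Six
open Pool.Agent.TH362.TF (NZ PQ N1 IsPQ Cons Joins nb padj)
open Pool.Agent.H126R2.CDC (T3)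

variable {V E : Type} [Fintype V] [DecidableEq V] [Fintype E] [DecidableEq E]

theorem nb_inj : ∀ k : Fin 10, ∀ i j : Fin 3, nb k i = nb k j → i = j := by decide
theorem nb_ne : ∀ k : Fin 10, ∀ j : Fin 3, nb k j ≠ k := by decide
theorem padj_nb : ∀ k : Fin 10, ∀ j : Fin 3, padj k (nb k j) = true := by decide
theorem succ_ne : ∀ k : Fin 10, k + 1 ≠ k := by decide

/-- the number of the edges of `M` with one end in `U` -/
theorem even_cut (G : MGraph V E) (al be : E → V) (hab : ∀ e, al e ≠ be e)
    (hends : ∀ e, G.ends e = s(al e, be e)) (U : Finset V) (x0 p : V) (hx0 : x0 ∈ U) (hp : p ∉ U)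
    (M : Finset E) (hM : ∀ v ∈ U, Even (dg G M v)) :
    Even (M.filter fun e => ¬ (al e ∈ U ↔ be e ∈ U)).card := by
  classical
  have hne : x0 ≠ p := fun h => hp (h ▸ hx0)
  have h1 := sum_dg_class G al be hab hends (fun v => if v ∈ U then x0 else p) M x0
  have h2 : (univ.filter fun v => (if v ∈ U then x0 else p) = x0) = U := by
    ext v
    rw [mem_filter]
    by_cases h : v ∈ U
    · simp [h]
    · simp [h, hne.symm]
  rw [h2] at h1
  have h3 : Even (∑ e ∈ M, en (fun v => if v ∈ U then x0 else p) al be e x0) := by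
    rw [← h1]
    exact Finset.even_sum _ fun v hv => hM v hv
  rw [← Nat.not_odd_iff_even, Finset.odd_sum_iff_odd_card_odd, Nat.not_odd_iff_even] at h3
  have h4 : (M.filter fun e => Odd (en (fun v => if v ∈ U then x0 else p) al be e x0)) =
      M.filter fun e => ¬ (al e ∈ U ↔ be e ∈ U) := by
    apply filter_congr
    intro e _
    unfold en
    by_cases h5 : al e ∈ U <;> by_cases h6 : be e ∈ U <;> simp [h5, h6, hne.symm] <;> decide
  rwa [h4] at h3

theorem xor_of_even : ∀ p q r : Bool, Even ((if p = true then 1 else 0) +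
    ((if q = true then 1 else 0) + (if r = true then 1 else 0)) : ℕ) → xor (xor p q) r = false := by
  decide

theorem glue (G : MGraph V E) (hG : IsCubic G) (hb : ∀ e, ∃ D, Ev G D ∧ e ∈ D) (S : Finset E)
    (hS : ∀ v, dg G S v = 0 ∨ dg G S v = 2) (D : Finset E) (hD : Ev G D) (hDS : Disjoint D S)
    (al be : E → V) (hab : ∀ e, al e ≠ be e) (hends : ∀ e, G.ends e = s(al e, be e))
    (κ : V → V) (hκr : ∀ v, Rch G (S ∪ D) v (κ v)) (hκ : ∀ u v, κ u = κ v ↔ Rch G (S ∪ D) u v)
    (c : V → Fin 10) (hPQ : IsPQ (κ ∘ al) (κ ∘ be) (univ \ (S ∪ D)) c)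
    (h16 : (TH362.TF.odd (κ ∘ al) (κ ∘ be) (univ \ (S ∪ D))).card ≤ 16)
    (hL : ∀ e ∈ S, Relation.ReflTransGen
      (fun x y => ∃ f, f ∉ S ∧ f ∉ D ∧ G.ends f = s(x, y)) (al e) (be e)) :
    ∃ X : T3 → Finset E, (∀ t, Ev G (X t)) ∧
      (∀ e ∈ S, (univ.filter fun t => e ∈ X t).card = 1) ∧
      (∀ e, e ∉ S → (univ.filter fun t => e ∈ X t).card = 2) := by
  classical
  have hκR : ∀ e ∈ S ∪ D, κ (al e) = κ (be e) := fun e he =>
    (hκ _ _).2 (Relation.ReflTransGen.single ⟨e, he, hends e⟩)
  have hfix : ∀ v, κ (κ v) = κ v := fun v => ((hκ v (κ v)).2 (hκr v)).symm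
  obtain ⟨U, hUd⟩ : ∃ U : Fin 10 → Finset V, U = fun k => univ.filter fun v => c (κ v) = k :=
    ⟨_, rfl⟩
  have hU : ∀ k v, v ∈ U k ↔ c (κ v) = k := by intro k v; rw [hUd, mem_filter]; simp
  -- all classes are nonempty
  have hex : ∀ k, ∃ v, v ∈ U k := by
    intro k
    obtain ⟨e, _, he⟩ := hPQ.2 k (nb k 0) (padj_nb k 0)
    rcases he with ⟨a, _⟩ | ⟨_, a⟩
    · exact ⟨al e, (hU k _).2 a⟩
    · exact ⟨be e, (hU k _).2 a⟩
  choose pt hpt using hex
  have hpt' : ∀ k, pt (k + 1) ∉ U k := by
    intro k h
    have h1 := (hU _ _).1 (hpt (k + 1))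
    have h2 := (hU _ _).1 h
    rw [h1] at h2
    exact succ_ne k h2
  -- the pieces
  have hpiece : ∀ k, ∃ X : T3 → Finset E, (∀ t, ∀ v ∈ U k, Even (dg G (X t) v)) ∧
      (∀ e ∈ S, al e ∈ U k → (univ.filter fun t => e ∈ X t).card = 1) ∧
      (∀ e, e ∉ S → al e ∈ U k ∨ be e ∈ U k → (univ.filter fun t => e ∈ X t).card = 2) := by
    intro k
    have hUk : ∀ v, v ∈ U k ↔ κ v ∈ U k := by intro v; rw [hU, hU, hfix]
    obtain ⟨κ', hκ'⟩ : ∃ κ' : V → V, ∀ v, κ' v = if v ∈ U k then κ v else pt (k + 1) :=
      ⟨fun v => if v ∈ U k then κ v else pt (k + 1), fun _ => rfl⟩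
    have hodd : (TH362.TF.odd (κ' ∘ al) (κ' ∘ be) (univ \ (S ∪ D))).card ≤ 9 := by
      obtain ⟨T, hT⟩ : ∃ T, T = TH362.TF.odd (κ ∘ al) (κ ∘ be) (univ \ (S ∪ D)) := ⟨_, rfl⟩
      have h1 : TH362.TF.odd (κ' ∘ al) (κ' ∘ be) (univ \ (S ∪ D)) ⊆
          insert (pt (k + 1)) (T.filter fun x => c x = k) := by
        intro x hx
        rw [mem_insert, mem_filter, hT]
        by_cases hxp : x = pt (k + 1)
        · exact Or.inl hxp
        right
        unfold TH362.TF.odd at hx ⊢
        rw [mem_filter] at hx ⊢
        have hx2 := hx.2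
        rw [deg_def] at hx2
        by_cases hcx : c x = k
        · refine ⟨⟨mem_univ _, ?_⟩, hcx⟩
          rw [deg_def]
          have h2 : ∀ w, κ' w = x ↔ κ w = x := by
            intro w
            rw [hκ']
            by_cases hw : w ∈ U k
            · rw [if_pos hw]
            · rw [if_neg hw]
              constructor
              · intro h; exact absurd h.symm hxp
              · intro h
                exact absurd ((hU k w).2 (by rw [h]; exact hcx)) hw
          have h3 : ∀ e, en κ' al be e x = en κ al be e x := by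
            intro e
            unfold en
            simp only [h2]
          simp only [h3] at hx2
          exact hx2
        · exfalso
          have h2 : ∀ w, κ' w ≠ x := by
            intro w
            rw [hκ']
            by_cases hw : w ∈ U k
            · rw [if_pos hw]
              intro h
              apply hcx
              rw [← h]
              exact (hU k w).1 hw
            · rw [if_neg hw]
              exact fun h => hxp h.symm
          have h3 : ∀ e, en κ' al be e x = 0 := by
            intro e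
            unfold en
            simp only [if_neg (h2 _), add_zero]
          simp only [h3, sum_const_zero] at hx2
          exact absurd hx2 (by decide)
      have h2 : 9 ≤ (T.filter fun x => ¬ c x = k).card := by
        have h3 : (univ : Finset (Fin 10)).erase k ⊆ (T.filter fun x => ¬ c x = k).image c := by
          intro l hl
          obtain ⟨x, hx, hx'⟩ := pq_odd _ _ _ c hPQ l
          rw [mem_image]
          refine ⟨x, mem_filter.2 ⟨hT ▸ hx', ?_⟩, hx⟩
          rw [hx]
          exact (mem_erase.1 hl).1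
        have h4 := card_le_card h3
        rw [card_erase_of_mem (mem_univ _), card_univ, Fintype.card_fin] at h4
        exact le_trans (by omega) (le_trans h4 card_image_le)
      have h3 := card_filter_add_card_filter_not (s := T) (fun x => c x = k)
      have h4 := card_le_card h1
      have h5 := card_insert_le (pt (k + 1)) (T.filter fun x => c x = k)
      rw [← hT] at h16
      omega
    obtain ⟨A, B, hA, hB, hcov⟩ := flows_piece G (S ∪ D) hb al be hab hends κ hκr hκ (U k) hUk
      (pt (k + 1)) (hpt' k) κ' hκ' (by omega) (fun c' => no_pq_odd _ _ _ hodd c')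
    apply piece G hG S hS al be hab hends (U k) ?_ ![D, A, B]
    · intro i v hv
      fin_cases i
      · exact hD v
      · exact hA v hv
      · exact hB v hv
    · intro e he _
      by_cases hd : e ∈ D
      · exact ⟨0, hd⟩
      · rcases hcov e (by rw [mem_union]; tauto) with h | h
        · exact ⟨1, h⟩
        · exact ⟨2, h⟩
    · intro e he hd
      exact (disjoint_left.1 hDS) hd he
    · intro e he _
      exact hL e he
    · intro e he
      rw [hU, hU, hκR e (mem_union_left _ he)]
  choose X hX1 hX2 hX3 using hpiece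
  -- the cut edges
  have hcutex : ∀ k j, ∃ e, e ∈ univ \ (S ∪ D) ∧ Joins c (κ ∘ al) (κ ∘ be) k (nb k j) e :=
    fun k j => hPQ.2 k (nb k j) (padj_nb k j)
  choose ε hε1 hε2 using hcutex
  have hεne : ∀ k i j, i ≠ j → ε k i ≠ ε k j := by
    intro k i j hij h
    apply hij
    apply nb_inj k
    have h1 := hε2 k i
    have h2 := hε2 k j
    rw [← h] at h2
    unfold Joins at h1 h2
    rcases h1 with ⟨a1, a2⟩ | ⟨a1, a2⟩ <;> rcases h2 with ⟨b1, b2⟩ | ⟨b1, b2⟩
    · rw [← a2, ← b2]
    · exact absurd (b1.symm.trans a1) (nb_ne k j)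
    · exact absurd (a1.symm.trans b1) (nb_ne k i)
    · rw [← a1, ← b1]
  have hεcut : ∀ k j, ¬ (al (ε k j) ∈ U k ↔ be (ε k j) ∈ U k) := by
    intro k j
    rw [hU, hU]
    have h1 := hε2 k j
    unfold Joins at h1
    rcases h1 with ⟨a1, a2⟩ | ⟨a1, a2⟩
    · simp only [Function.comp_apply] at a1 a2
      rw [a1, a2]
      intro h
      exact nb_ne k j (h.1 rfl)
    · simp only [Function.comp_apply] at a1 a2
      rw [a1, a2]
      intro h
      exact nb_ne k j (h.2 rfl)
  have hcut : ∀ k e, ¬ (al e ∈ U k ↔ be e ∈ U k) → ∃ j, e = ε k j := by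
    intro k e he
    have h1 : TH362.TF.cut (κ ∘ al) (κ ∘ be) (univ \ (S ∪ D)) (fun v => decide (c v = k)) =
        {ε k 0, ε k 1, ε k 2} := by
      symm
      apply eq_of_subset_of_card_le
      · intro f hf
        have h2 : ∃ j, f = ε k j := by
          rw [mem_insert, mem_insert, mem_singleton] at hf
          rcases hf with h | h | h
          · exact ⟨0, h⟩
          · exact ⟨1, h⟩
          · exact ⟨2, h⟩
        obtain ⟨j, rfl⟩ := h2
        unfold TH362.TF.cut
        rw [mem_filter]
        refine ⟨hε1 k j, ?_⟩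
        have h3 := hεcut k j
        rw [hU, hU] at h3
        simp only [Function.comp_apply, ne_eq, decide_eq_decide]
        exact h3
      · rw [hPQ.1 k, card_eq_three.2 ⟨ε k 0, ε k 1, ε k 2, hεne k 0 1 (by decide),
          hεne k 0 2 (by decide), hεne k 1 2 (by decide), rfl⟩]
    have h2 : e ∈ TH362.TF.cut (κ ∘ al) (κ ∘ be) (univ \ (S ∪ D)) (fun v => decide (c v = k)) := by
      unfold TH362.TF.cut
      rw [mem_filter]
      rw [hU, hU] at he
      refine ⟨mem_sdiff.2 ⟨mem_univ _, fun h => he ?_⟩, ?_⟩
      · rw [hκR e h]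
      · simp only [Function.comp_apply, ne_eq, decide_eq_decide]
        exact he
    rw [h1, mem_insert, mem_insert, mem_singleton] at h2
    rcases h2 with h | h | h
    · exact ⟨0, h⟩
    · exact ⟨1, h⟩
    · exact ⟨2, h⟩
  -- the permutations
  have hperm : ∀ k, ∃ σ : Equiv.Perm T3, ∀ j t, (pm k (nb k j) (σ t) = true ↔ ε k j ∈ X k t) := by
    intro k
    obtain ⟨σ, hσ⟩ := match_perm (fun j t => decide (ε k j ∈ X k t)) (fun j t => pm k (nb k j) t)
      (fun j => by
        simp only [decide_eq_true_eq]
        apply hX3 k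
        · intro h
          exact (mem_sdiff.1 (hε1 k j)).2 (mem_union_left _ h)
        · have h1 := hεcut k j
          tauto)
      (fun t => by
        apply xor_of_even
        simp only [decide_eq_true_eq]
        have h1 := even_cut G al be hab hends (U k) (pt k) (pt (k + 1)) (hpt k) (hpt' k) (X k t)
          (hX1 k t)
        have h2 : ((X k t).filter fun e => ¬ (al e ∈ U k ↔ be e ∈ U k)) =
            ({ε k 0, ε k 1, ε k 2} : Finset E).filter fun e => e ∈ X k t := by
          ext e
          rw [mem_filter, mem_filter]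
          constructor
          · rintro ⟨h3, h4⟩
            obtain ⟨j, rfl⟩ := hcut k e h4
            refine ⟨?_, h3⟩
            fin_cases j <;> simp
          · rintro ⟨h3, h4⟩
            have h5 : ∃ j, e = ε k j := by
              rw [mem_insert, mem_insert, mem_singleton] at h3
              rcases h3 with h | h | h
              · exact ⟨0, h⟩
              · exact ⟨1, h⟩
              · exact ⟨2, h⟩
            obtain ⟨j, rfl⟩ := h5
            exact ⟨h4, hεcut k j⟩
        rw [h2, card_filter, sum_three _ _ _ _ (hεne k 0 1 (by decide)) (hεne k 0 2 (by decide))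
          (hεne k 1 2 (by decide))] at h1
        exact h1)
      (fun j => pm_card k j) (fun t => pm_par k t)
    refine ⟨σ, fun j t => ?_⟩
    have := hσ j t
    rw [decide_eq_true_eq] at this
    exact this
  choose σ hσ using hperm
  -- the eight sets
  obtain ⟨Y, hY⟩ : ∃ Y : T3 → Finset E, ∀ t e, e ∈ Y t ↔
      (if c (κ (al e)) = c (κ (be e)) then decide (e ∈ X (c (κ (al e))) ((σ (c (κ (al e)))).symm t))
        else pm (c (κ (al e))) (c (κ (be e))) t) = true :=
    ⟨fun t => univ.filter fun e =>
      (if c (κ (al e)) = c (κ (be e)) then decide (e ∈ X (c (κ (al e))) ((σ (c (κ (al e)))).symm t))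
        else pm (c (κ (al e))) (c (κ (be e))) t) = true, by intro t e; rw [mem_filter]; simp⟩
  have hkey : ∀ k e t, al e ∈ U k ∨ be e ∈ U k → (e ∈ Y t ↔ e ∈ X k ((σ k).symm t)) := by
    intro k e t he
    rw [hY]
    by_cases h1 : c (κ (al e)) = c (κ (be e))
    · rw [if_pos h1, decide_eq_true_eq]
      have h2 : c (κ (al e)) = k := by
        rcases he with h | h
        · exact (hU k _).1 h
        · rw [h1]; exact (hU k _).1 h
      rw [h2]
    · rw [if_neg h1]
      have h2 : ¬ (al e ∈ U k ↔ be e ∈ U k) := by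
        rw [hU, hU] at he ⊢
        intro h
        rcases he with h3 | h3
        · exact h1 (h3.trans (h.1 h3).symm)
        · exact h1 ((h.2 h3).trans h3.symm)
      obtain ⟨j, rfl⟩ := hcut k e h2
      have h3 := hσ k j ((σ k).symm t)
      rw [Equiv.apply_symm_apply] at h3
      rw [← h3]
      have h4 := hε2 k j
      unfold Joins at h4
      simp only [Function.comp_apply] at h4
      rcases h4 with ⟨a1, a2⟩ | ⟨a1, a2⟩
      · rw [a1, a2]
      · rw [a1, a2, pm_symm]
  have hcount : ∀ k e, al e ∈ U k → (univ.filter fun t => e ∈ Y t).card =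
      (univ.filter fun t => e ∈ X k t).card := by
    intro k e he
    symm
    apply Finset.card_bij (fun t _ => σ k t)
    · intro t ht
      rw [mem_filter] at ht ⊢
      refine ⟨mem_univ _, (hkey k e _ (Or.inl he)).2 ?_⟩
      rw [Equiv.symm_apply_apply]
      exact ht.2
    · intro t _ t' _ h
      exact (σ k).injective h
    · intro t ht
      rw [mem_filter] at ht
      exact ⟨(σ k).symm t, mem_filter.2 ⟨mem_univ _, (hkey k e t (Or.inl he)).1 ht.2⟩,
        Equiv.apply_symm_apply _ _⟩
  have hown : ∀ v, v ∈ U (c (κ v)) := fun v => (hU _ _).2 rfl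
  refine ⟨Y, fun t v => ?_, fun e he => ?_, fun e he => ?_⟩
  · have h1 := hX1 (c (κ v)) ((σ (c (κ v))).symm t) v (hown v)
    have h2 : dg G (Y t) v = dg G (X (c (κ v)) ((σ (c (κ v))).symm t)) v := by
      unfold dg
      congr 1
      ext e
      rw [mem_filter, mem_filter]
      have h3 : v ∈ G.ends e → (e ∈ Y t ↔ e ∈ X (c (κ v)) ((σ (c (κ v))).symm t)) := by
        intro hv
        apply hkey
        rw [hends e, Sym2.mem_iff] at hv
        rcases hv with h | h
        · left; rw [← h]; exact hown v
        · right; rw [← h]; exact hown v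
      tauto
    rw [h2]
    exact h1
  · rw [hcount _ e (hown (al e))]
    exact hX2 _ e he (hown (al e))
  · rw [hcount _ e (hown (al e))]
    exact hX3 _ e he (Or.inl (hown (al e)))

end Pool.Agent.H46.CDCS
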