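import Pool.Graph.R_seed8.H126R2.CDC.Lift
import Pool.Graph.R_seed8.H126R2.CDC.Tab

set_option autoImplicit false
set_option linter.unusedSectionVars false

/-!
The lift of an eight-flow with prescribed values on an even edge set `S`, up to shifts along `S`
(compare `Pool.Agent.H126R2.CDC.lift`, the case `S = ∅`).
-/

namespace Pool.Agent.H46.CDCS

open Finset
open Pool.Agent.Helper879.ECD (F2 IsFlow)
open Pool.Agent.H126R2.CDC (functional_eq mem_cob_of_orth point_identity)

section

variable {W E : Type} [Fintype W] [DecidableEq W] [Fintype E] [DecidableEq E]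

/-- the quadratic map in coordinates -/
def lamc (x : Fin 3 → F2) (i : Fin 3) : F2 :=
  if i = 0 then x 0 + x 1 * x 2 else if i = 1 then x 1 + x 0 + x 0 * x 2
  else x 2 + (x 0 + x 1) + x 0 * x 1

/-- the cross product -/
def crs (x y : Fin 3 → F2) (i : Fin 3) : F2 :=
  if i = 0 then x 1 * y 2 + x 2 * y 1 else if i = 1 then x 0 * y 2 + x 2 * y 0
  else x 0 * y 1 + x 1 * y 0

lemma cube_identity : ∀ A0 A1 A2 p0 p1 p2 q0 q1 q2 c0 c1 c2 : F2,
    (A0 + p0 + c0) * (A1 + p1 + c1) * (A2 + p2 + c2) = 0 →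
    (A0 + q0 + c0) * (A1 + q1 + c1) * (A2 + q2 + c2) = 0 →
    (p0 + q0) * (A0 + A1 * A2) + (p1 + q1) * (A1 + A0 + A0 * A2) +
      (p2 + q2) * (A2 + (A0 + A1) + A0 * A1) =
    (A0 * (p0 + q0) + A1 * (p1 + q1) + A2 * (p2 + q2) +
      A0 * (p1 + q1) + A0 * (p2 + q2) + A1 * (p2 + q2) +
      A0 * (p1 * p2 + q1 * q2) + A1 * (p0 * p2 + q0 * q2) + A2 * (p0 * p1 + q0 * q1)) +
    (((p0 + c0) * (p1 + c1) * (p2 + c2) + (q0 + c0) * (q1 + c1) * (q2 + c2)) +
      (c0 * (A1 * (p2 + q2) + A2 * (p1 + q1)) + c1 * (A0 * (p2 + q2) + A2 * (p0 + q0)) +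
        c2 * (A0 * (p1 + q1) + A1 * (p0 + q0)))) := by
  decide +kernel

theorem liftG (a b : E → W) (S : Finset E) (hSf : IsFlow a b (fun e => if e ∈ S then 1 else 0))
    (A : Fin 3 → E → F2) (hA : ∀ i, IsFlow a b (A i))
    (hnz : ∀ e, e ∉ S → A 0 e ≠ 0 ∨ A 1 e ≠ 0 ∨ A 2 e ≠ 0)
    (hN : ∀ x : Fin 3 → W → F2,
      (∀ e, e ∉ S → ∃ y : F2, ∀ i, y * A i e = x i (a e) + x i (b e)) →
      (∀ K : W → F2, (∀ e ∈ S, K (a e) = K (b e)) → ∀ i,
        ∑ e ∈ S, crs (fun j => A j e) (fun j => x j (a e) + x j (b e)) i * K (a e) = 0) →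
      ∃ c : Fin 3 → W → F2, (∀ i, ∀ e ∈ S, c i (a e) = c i (b e)) ∧ ∀ e ∈ S,
        (A 0 e + x 0 (a e) + c 0 (a e)) * (A 1 e + x 1 (a e) + c 1 (a e)) *
          (A 2 e + x 2 (a e) + c 2 (a e)) = 0 ∧
        (A 0 e + x 0 (b e) + c 0 (b e)) * (A 1 e + x 1 (b e) + c 1 (b e)) *
          (A 2 e + x 2 (b e) + c 2 (b e)) = 0) :
    ∃ (k : Fin 3 → W → F2) (B : Fin 3 → E → F2), (∀ i, ∀ e ∈ S, k i (a e) = k i (b e)) ∧
      (∀ i, IsFlow a b (B i)) ∧
      (∀ e, e ∉ S → A 0 e * B 0 e + A 1 e * B 1 e + A 2 e * B 2 e = 1) ∧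
      ∀ e ∈ S, ∀ i, B i e + crs (fun j => A j e) (fun j => k j (a e)) i =
        lamc (fun j => A j e) i := by
  classical
  -- the vector of a triple of flows and a shift
  let mk : (Fin 3 → W → F2) → (Fin 3 → E → F2) → (E × Fin 3 → F2) := fun k B n =>
    if n.1 ∈ S then B n.2 n.1 + crs (fun j => A j n.1) (fun j => k j (a n.1)) n.2
    else if n.2 = 0 then
      A 0 n.1 * B 0 n.1 + A 1 n.1 * B 1 n.1 + A 2 n.1 * B 2 n.1 else 0
  let T : Submodule F2 (E × Fin 3 → F2) :=
    { carrier := {x | ∃ (k : Fin 3 → W → F2) (B : Fin 3 → E → F2),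
        (∀ i, ∀ e ∈ S, k i (a e) = k i (b e)) ∧ (∀ i, IsFlow a b (B i)) ∧ ∀ n, mk k B n = x n}
      zero_mem' := ⟨fun _ _ => 0, fun _ _ => 0, fun _ _ _ => rfl,
        fun i c => by simp, fun n => by simp [mk, crs]⟩
      add_mem' := by
        rintro x y ⟨k, B, hk, hB, hBx⟩ ⟨k', B', hk', hB', hBy⟩
        refine ⟨fun i w => k i w + k' i w, fun i e => B i e + B' i e,
          fun i e he => by simp only [hk i e he, hk' i e he], fun i c => ?_, fun n => ?_⟩
        · have h1 := hB i c
          have h2 := hB' i c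
          simp only [add_mul, Finset.sum_add_distrib] at *
          rw [h1, h2, add_zero]
        · simp only [Pi.add_apply]
          rw [← hBx, ← hBy]
          simp only [mk, crs]
          split_ifs <;> ring
      smul_mem' := by
        rintro r x ⟨k, B, hk, hB, hBx⟩
        refine ⟨fun i w => r * k i w, fun i e => r * B i e,
          fun i e he => by simp only [hk i e he], fun i c => ?_, fun n => ?_⟩
        · have h1 := hB i c
          simp only [mul_assoc, ← Finset.mul_sum] at *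
          rw [h1, mul_zero]
        · simp only [Pi.smul_apply, smul_eq_mul]
          rw [← hBx]
          simp only [mk, crs]
          split_ifs <;> ring }
  let t : E × Fin 3 → F2 := fun n =>
    if n.1 ∈ S then lamc (fun j => A j n.1) n.2 else if n.2 = 0 then 1 else 0
  suffices h : t ∈ T by
    obtain ⟨k, B, hk, hB, hBt⟩ := h
    refine ⟨k, B, hk, hB, fun e he => ?_, fun e he i => ?_⟩
    · have := hBt (e, 0)
      simp only [mk, t, if_neg he, if_true] at this
      exact this
    · have := hBt (e, i)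
      simp only [mk, t, if_pos he] at this
      exact this
  by_contra hcon
  obtain ⟨f, hf1, hf2⟩ := Submodule.exists_dual_map_eq_bot_of_notMem hcon inferInstance
  have hf : ∀ x ∈ T, f x = 0 := by
    intro x hx
    have : f x ∈ T.map f := Submodule.mem_map_of_mem hx
    rw [hf2] at this
    exact (Submodule.mem_bot F2).1 this
  obtain ⟨d, hd⟩ : ∃ d : E × Fin 3 → F2, d = fun n => f (Pi.single n 1) := ⟨_, rfl⟩
  have hfd : ∀ x : E × Fin 3 → F2, f x = ∑ e, (d (e, 0) * x (e, 0) + d (e, 1) * x (e, 1) +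
      d (e, 2) * x (e, 2)) := by
    intro x
    rw [functional_eq f x, Fintype.sum_prod_type]
    apply Finset.sum_congr rfl
    intro e _
    rw [Fin.sum_univ_three, hd]
  have hcob : ∀ i : Fin 3, ∃ c : W → F2, ∀ e, (if e ∈ S then d (e, i) else d (e, 0) * A i e) =
      c (a e) + c (b e) := by
    intro i
    apply mem_cob_of_orth
    intro B hB
    have hmem : mk (fun _ _ => 0) (fun j e => if j = i then B e else 0) ∈ T := by
      refine ⟨fun _ _ => 0, fun j e => if j = i then B e else 0, fun _ _ _ => rfl,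
        fun j c => ?_, fun n => rfl⟩
      by_cases hj : j = i
      · simp only [hj, if_true]; exact hB c
      · simp [hj]
    have h1 := hf _ hmem
    rw [hfd] at h1
    rw [← h1]
    apply Finset.sum_congr rfl
    intro e _
    by_cases he : e ∈ S
    · simp only [mk, if_pos he, crs]
      fin_cases i <;> simp <;> ring
    · simp only [mk, if_neg he]
      fin_cases i <;> simp <;> ring
  choose x hx using hcob
  have hxS : ∀ e ∈ S, ∀ i, d (e, i) = x i (a e) + x i (b e) := by
    intro e he i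
    have := hx i e
    rwa [if_pos he] at this
  obtain ⟨c, hc, hcS⟩ := hN x (fun e he => ⟨d (e, 0), fun i => by
      have h1 := hx i e
      rw [if_neg he] at h1
      exact h1⟩) (by
    intro K hK i
    have hmem : mk (fun j w => if j = i then K w else 0) (fun _ _ => 0) ∈ T :=
      ⟨fun j w => if j = i then K w else 0, fun _ _ => 0, fun j e he => by
        simp only [hK e he], fun j c => by simp, fun n => rfl⟩
    have h1 := hf _ hmem
    rw [hfd] at h1
    refine Eq.trans ?_ h1
    rw [← Finset.sum_subset (Finset.subset_univ S)]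
    · apply Finset.sum_congr rfl
      intro e he
      simp only [mk, if_pos he, hxS e he, crs]
      fin_cases i <;> simp <;> ring
    · intro e _ he
      simp only [mk, if_neg he]
      simp)
  apply hf1
  rw [hfd]
  -- the correction terms on `S`
  obtain ⟨g, hg⟩ : ∃ g : W → F2, g = fun w => (x 0 w + c 0 w) * (x 1 w + c 1 w) *
      (x 2 w + c 2 w) := ⟨_, rfl⟩
  have h1 : ∀ e ∈ (univ : Finset E), (d (e, 0) * t (e, 0) + d (e, 1) * t (e, 1) +
      d (e, 2) * t (e, 2)) =
      (A 0 e * (x 0 (a e) + x 0 (b e)) + A 1 e * (x 1 (a e) + x 1 (b e)) +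
      A 2 e * (x 2 (a e) + x 2 (b e)) + A 0 e * (x 1 (a e) + x 1 (b e)) +
      A 0 e * (x 2 (a e) + x 2 (b e)) + A 1 e * (x 2 (a e) + x 2 (b e)) +
      A 0 e * ((x 1 * x 2) (a e) + (x 1 * x 2) (b e)) +
      A 1 e * ((x 0 * x 2) (a e) + (x 0 * x 2) (b e)) +
      A 2 e * ((x 0 * x 1) (a e) + (x 0 * x 1) (b e))) +
      ((if e ∈ S then 1 else 0) * (g (a e) + g (b e)) +
        ((if e ∈ S then crs (fun j => A j e) (fun j => x j (a e) + x j (b e)) 0 * c 0 (a e)
          else 0) +
        (if e ∈ S then crs (fun j => A j e) (fun j => x j (a e) + x j (b e)) 1 * c 1 (a e)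
          else 0) +
        (if e ∈ S then crs (fun j => A j e) (fun j => x j (a e) + x j (b e)) 2 * c 2 (a e)
          else 0))) := by
    intro e _
    by_cases he : e ∈ S
    · obtain ⟨g1, g2⟩ := hcS e he
      rw [← hc 0 e he, ← hc 1 e he, ← hc 2 e he] at g2
      have h2 := cube_identity (A 0 e) (A 1 e) (A 2 e) (x 0 (a e)) (x 1 (a e)) (x 2 (a e))
        (x 0 (b e)) (x 1 (b e)) (x 2 (b e)) (c 0 (a e)) (c 1 (a e)) (c 2 (a e)) g1 g2
      simp only [t, if_pos he, lamc, crs, hxS e he, Pi.mul_apply, hg, ← hc 0 e he, ← hc 1 e he,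
        ← hc 2 e he]
      simp only [if_true, one_ne_zero, if_false, Fin.isValue]
      have h20 : ¬ ((2 : Fin 3) = 0) := by decide
      have h21 : ¬ ((2 : Fin 3) = 1) := by decide
      simp only [h20, h21, if_false]
      rw [h2]
      ring
    · have e0 := hx 0 e
      have e1 := hx 1 e
      have e2 := hx 2 e
      rw [if_neg he] at e0 e1 e2
      simp only [t, if_neg he]
      simp only [if_true, Fin.isValue, one_ne_zero, if_false, mul_one, mul_zero, add_zero, zero_mul]
      have h20 : ¬ ((2 : Fin 3) = 0) := by decide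
      simp only [h20, if_false, mul_zero, add_zero]
      exact point_identity (d (e, 0)) (A 0 e) (A 1 e) (A 2 e) (x 0 (a e)) (x 1 (a e)) (x 2 (a e))
        (x 0 (b e)) (x 1 (b e)) (x 2 (b e)) (hnz e he) e0 e1 e2
  rw [Finset.sum_congr rfl h1]
  have h2 : ∀ i : Fin 3, ∑ e, (if e ∈ S then
      crs (fun j => A j e) (fun j => x j (a e) + x j (b e)) i * c i (a e) else 0) = 0 := by
    intro i
    have h3 : ∀ K : W → F2, (∀ e ∈ S, K (a e) = K (b e)) →
        ∑ e, (if e ∈ S then crs (fun j => A j e) (fun j => x j (a e) + x j (b e)) i * K (a e)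
          else 0) = 0 := by
      intro K hK
      have hmem : mk (fun j w => if j = i then K w else 0) (fun _ _ => 0) ∈ T :=
        ⟨fun j w => if j = i then K w else 0, fun _ _ => 0, fun j e he => by
          simp only [hK e he], fun j c => by simp, fun n => rfl⟩
      have h4 := hf _ hmem
      rw [hfd] at h4
      refine Eq.trans (Finset.sum_congr rfl fun e _ => ?_) h4
      by_cases he : e ∈ S
      · simp only [mk, if_pos he, hxS e he, crs]
        fin_cases i <;> simp <;> ring
      · simp only [mk, if_neg he]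
        simp
    exact h3 (c i) (hc i)
  simp only [Finset.sum_add_distrib]
  rw [hA 0 (x 0), hA 1 (x 1), hA 2 (x 2), hA 0 (x 1), hA 0 (x 2), hA 1 (x 2),
    hA 0 (x 1 * x 2), hA 1 (x 0 * x 2), hA 2 (x 0 * x 1), hSf g, h2 0, h2 1, h2 2]
  simp

end

end Pool.Agent.H46.CDCS
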