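import Pool.Agent.H46.CDCS.CoverG

set_option autoImplicit false
set_option linter.unusedSectionVars false

/-!
Eight edge sets which are even at the vertices of a set `U` and cover the edges of `S` at `U` once
and the other edges at `U` twice: the contraction of the complement of `U`.
-/

namespace Pool.Agent.H46.CDCS

open Finset
open Pool.Agent.Helper347.Sab hiding F2
open Pool.Agent.Helper998.Near (Rch rch_symm even_iff_cast)
open Pool.Agent.Helper879.ECD (F2 IsFlow)
open Pool.Agent.H126R2.CDC (T3 lam inS dot card_inS tri_inS toB toB_add toB_dot lab lab_add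
  f2_eq_of_add3)
open Pool.Agent.W831.HI (dg_cast)

variable {V E : Type} [Fintype V] [DecidableEq V] [Fintype E] [DecidableEq E]

/-- the collapse of the complement of `U` -/
def coll (U : Finset V) (v : V) : Option V := if v ∈ U then some v else none

theorem coll_some (U : Finset V) (v w : V) : coll U v = some w ↔ v ∈ U ∧ v = w := by
  unfold coll
  by_cases h : v ∈ U <;> simp [h]

/-- a set with even degrees in `U` gives a flow of the contracted graph -/
theorem coll_flow (G : MGraph V E) (U : Finset V) (al be : E → V) (hab : ∀ e, al e ≠ be e)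
    (hends : ∀ e, G.ends e = s(al e, be e)) (X : Finset E)
    (hX : ∀ v ∈ U, Even (dg G X v)) :
    IsFlow (fun e => coll U (al e)) (fun e => coll U (be e)) (fun e => if e ∈ X then 1 else 0) := by
  classical
  intro c
  -- normalise the test function
  obtain ⟨d, hd⟩ : ∃ d : V → F2, d = fun v => if v ∈ U then c (some v) + c none else 0 := ⟨_, rfl⟩
  have hd' : ∀ v, d v = c (coll U v) + c none := by
    intro v
    rw [hd]
    unfold coll
    by_cases h : v ∈ U
    · simp only [if_pos h]
    · simp only [if_neg h]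
      exact (CharTwo.add_self_eq_zero _).symm
  have h0 : ∀ e, c (coll U (al e)) + c (coll U (be e)) = d (al e) + d (be e) := by
    intro e
    rw [hd', hd']
    have := CharTwo.add_self_eq_zero (c none)
    linear_combination -this
  have h1 : ∀ e, d (al e) + d (be e) = ∑ v, if v ∈ G.ends e then d v else 0 := by
    intro e
    rw [hends e]
    have h2 : (univ.filter fun v => v ∈ s(al e, be e)) = {al e, be e} := by
      ext v
      simp
    rw [← Finset.sum_filter, h2, Finset.sum_pair (hab e)]
  have h3 : ∑ e, (if e ∈ X then (1 : F2) else 0) * (c (coll U (al e)) + c (coll U (be e))) =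
      ∑ v, d v * ∑ e, (if v ∈ G.ends e then (if e ∈ X then (1 : F2) else 0) else 0) := by
    simp only [h0, h1, Finset.mul_sum]
    rw [Finset.sum_comm]
    refine Finset.sum_congr rfl fun v _ => Finset.sum_congr rfl fun e _ => ?_
    by_cases hv : v ∈ G.ends e <;> simp [hv, mul_comm]
  rw [h3]
  refine Finset.sum_eq_zero fun v _ => ?_
  by_cases hv : v ∈ U
  · rw [← dg_cast, (even_iff_cast _).1 (hX v hv), mul_zero]
  · rw [hd]
    simp only [if_neg hv, zero_mul]

/-- the values at a vertex of `U` -/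
theorem coll_at (G : MGraph V E) (U : Finset V) (al be : E → V) (hab : ∀ e, al e ≠ be e)
    (hends : ∀ e, G.ends e = s(al e, be e)) (ψ : E → F2)
    (hψ : IsFlow (fun e => coll U (al e)) (fun e => coll U (be e)) ψ) (v : V) (hv : v ∈ U) :
    ∑ e ∈ univ.filter (fun e => v ∈ G.ends e), ψ e = 0 := by
  classical
  have h1 := hψ (fun u => if u = some v then 1 else 0)
  rw [Finset.sum_filter]
  refine Eq.trans (Finset.sum_congr rfl fun e _ => ?_) h1
  have hm : v ∈ G.ends e ↔ al e = v ∨ be e = v := by
    rw [hends e, Sym2.mem_iff]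
    constructor
    · rintro (h | h)
      · exact Or.inl h.symm
      · exact Or.inr h.symm
    · rintro (h | h)
      · exact Or.inl h.symm
      · exact Or.inr h.symm
  have ha : coll U (al e) = some v ↔ al e = v := by
    rw [coll_some]
    constructor
    · exact fun h => h.2
    · intro h; exact ⟨h ▸ hv, h⟩
  have hb : coll U (be e) = some v ↔ be e = v := by
    rw [coll_some]
    constructor
    · exact fun h => h.2
    · intro h; exact ⟨h ▸ hv, h⟩
  by_cases h5 : al e = v
  · have h6 : ¬ be e = v := fun h => hab e (h5.trans h.symm)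
    rw [if_pos (hm.2 (Or.inl h5)), if_pos (ha.2 h5), if_neg (fun h => h6 (hb.1 h)), add_zero,
      mul_one]
  · by_cases h6 : be e = v
    · rw [if_pos (hm.2 (Or.inr h6)), if_neg (fun h => h5 (ha.1 h)), if_pos (hb.2 h6), zero_add,
        mul_one]
    · rw [if_neg (fun h => (hm.1 h).elim h5 h6), if_neg (fun h => h5 (ha.1 h)),
        if_neg (fun h => h6 (hb.1 h)), add_zero, mul_zero]

/-- The parity at one vertex. -/
theorem local_even (G : MGraph V E) (S : Finset E) (v : V) (h3 : dg G univ v = 3)
    (hS : dg G S v = 0 ∨ dg G S v = 2) (Z Y : Fin 3 → E → F2)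
    (hZf : ∀ i, ∑ e ∈ univ.filter (fun e => v ∈ G.ends e), Z i e = 0)
    (hYf : ∀ i, ∑ e ∈ univ.filter (fun e => v ∈ G.ends e), Y i e = 0)
    (hnz : ∀ e, e ∉ S → Z 0 e ≠ 0 ∨ Z 1 e ≠ 0 ∨ Z 2 e ≠ 0)
    (hdot : ∀ e, e ∉ S → dot (lab Z e) (lab Y e) = true)
    (hY2 : ∀ e ∈ S, ∀ i, Y i e = lamc (fun j => Z j e) i)
    (X : T3 → Finset E) (hXS : ∀ c e, e ∈ S → (e ∈ X c ↔ decide (c = lab Z e) = true))
    (hXN : ∀ c e, e ∉ S → (e ∈ X c ↔ inS c (lab Z e) (lab Y e) = true)) (c : T3) :
    Even (dg G (X c) v) := by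
  classical
  have hsum : ∀ (W : Fin 3 → E → F2), (∀ i, ∑ e ∈ univ.filter (fun e => v ∈ G.ends e), W i e = 0) →
      ∀ e f g : E, e ≠ f → e ≠ g → f ≠ g → univ.filter (fun x => v ∈ G.ends x) = {e, f, g} →
      lab W g = T3.add (lab W e) (lab W f) := by
    intro W hW e f g hef heg hfg h
    apply lab_add
    intro i
    have h1 := hW i
    rw [h, sum_three _ e f g hef heg hfg] at h1
    exact f2_eq_of_add3 h1
  rcases hS with h0 | h2
  · -- off S
    obtain ⟨e, f, g, hef, heg, hfg, h⟩ := card_eq_three.1 h3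
    have hn : ∀ x, v ∈ G.ends x → x ∉ S := by
      intro x hx hxS
      have := dg_pos_of_mem (G := G) hxS hx
      omega
    have hmem : ∀ x, x ∈ ({e, f, g} : Finset E) → v ∈ G.ends x := by
      intro x hx
      rw [← h, mem_filter] at hx
      exact hx.2
    have he := hn e (hmem e (by simp))
    have hf := hn f (hmem f (by simp))
    have hg := hn g (hmem g (by simp))
    rw [dg_three G (X c) v e f g hef heg hfg h]
    simp only [hXN c e he, hXN c f hf, hXN c g hg]
    apply even3
    rw [hsum Z hZf e f g hef heg hfg h, hsum Y hYf e f g hef heg hfg h]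
    apply tri_inS
    rw [hdot e he, hdot f hf, ← hsum Z hZf e f g hef heg hfg h, ← hsum Y hYf e f g hef heg hfg h,
      hdot g hg]
    rfl
  · -- on S
    obtain ⟨e, f, hef, h⟩ := card_eq_two.1 h2
    have h3' := dg_sdiff (G := G) (X := univ) (Y := S) (subset_univ _) v
    rw [h3, h2] at h3'
    have h4 : dg G (univ \ S) v = 1 := by omega
    obtain ⟨g, hg⟩ := card_eq_one.1 h4
    have he : e ∈ S ∧ v ∈ G.ends e := by
      have : e ∈ ({e, f} : Finset E) := by simp
      rw [← h, mem_filter] at this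
      exact this
    have hf : f ∈ S ∧ v ∈ G.ends f := by
      have : f ∈ ({e, f} : Finset E) := by simp
      rw [← h, mem_filter] at this
      exact this
    have hgS : g ∉ S ∧ v ∈ G.ends g := by
      have : g ∈ ({g} : Finset E) := by simp
      rw [← hg, mem_filter, mem_sdiff] at this
      exact ⟨this.1.2, this.2⟩
    have heg : e ≠ g := fun h' => hgS.1 (h' ▸ he.1)
    have hfg : f ≠ g := fun h' => hgS.1 (h' ▸ hf.1)
    have hall : univ.filter (fun x => v ∈ G.ends x) = {e, f, g} := by
      ext x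
      rw [mem_filter]
      constructor
      · rintro ⟨_, hx⟩
        by_cases hxS : x ∈ S
        · have : x ∈ ({e, f} : Finset E) := by rw [← h, mem_filter]; exact ⟨hxS, hx⟩
          rw [mem_insert, mem_singleton] at this
          rcases this with h5 | h5 <;> simp [h5]
        · have : x ∈ ({g} : Finset E) := by
            rw [← hg, mem_filter, mem_sdiff]; exact ⟨⟨mem_univ _, hxS⟩, hx⟩
          rw [mem_singleton] at this
          simp [this]
      · intro hx
        rw [mem_insert, mem_insert, mem_singleton] at hx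
        rcases hx with rfl | rfl | rfl
        · exact ⟨mem_univ _, he.2⟩
        · exact ⟨mem_univ _, hf.2⟩
        · exact ⟨mem_univ _, hgS.2⟩
    rw [dg_three G (X c) v e f g hef heg hfg hall]
    simp only [hXS c e he.1, hXS c f hf.1, hXN c g hgS.1]
    apply even3
    have h5 := hsum Z hZf e f g hef heg hfg hall
    have h6 := hsum Y hYf e f g hef heg hfg hall
    have h7 := lab_ne Z g (hnz g hgS.1)
    rw [lab_lam Z Y e (fun i => hY2 e he.1 i), lab_lam Z Y f (fun i => hY2 f hf.1 i)] at h6
    rw [h5, h6]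
    rw [h5] at h7
    exact two_single _ _ c h7

/-- Eight sets for the vertex set `U`. -/
theorem piece (G : MGraph V E) (hG : IsCubic G) (S : Finset E)
    (hS : ∀ v, dg G S v = 0 ∨ dg G S v = 2) (al be : E → V) (hab : ∀ e, al e ≠ be e)
    (hends : ∀ e, G.ends e = s(al e, be e)) (U : Finset V)
    (hSU : ∀ e ∈ S, (al e ∈ U ↔ be e ∈ U)) (A : Fin 3 → Finset E)
    (hA : ∀ i, ∀ v ∈ U, Even (dg G (A i) v))
    (hcov : ∀ e, e ∉ S → al e ∈ U ∨ be e ∈ U → ∃ i, e ∈ A i)
    (hA0 : ∀ e ∈ S, e ∉ A 0)
    (hL : ∀ e ∈ S, al e ∈ U → Relation.ReflTransGen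
      (fun x y => ∃ f, f ∉ S ∧ f ∉ A 0 ∧ G.ends f = s(x, y)) (al e) (be e)) :
    ∃ X : T3 → Finset E, (∀ c, ∀ v ∈ U, Even (dg G (X c) v)) ∧
      (∀ e ∈ S, al e ∈ U → (univ.filter fun c => e ∈ X c).card = 1) ∧
      (∀ e, e ∉ S → al e ∈ U ∨ be e ∈ U → (univ.filter fun c => e ∈ X c).card = 2) := by
  classical
  obtain ⟨S', hS'⟩ : ∃ S', S' = S.filter fun e => al e ∈ U := ⟨_, rfl⟩
  have hmS : ∀ e, e ∈ S' ↔ e ∈ S ∧ al e ∈ U := by intro e; rw [hS', mem_filter]
  obtain ⟨O, hO⟩ : ∃ O : Finset E, O = univ.filter fun e => ¬ (al e ∈ U ∨ be e ∈ U) := ⟨_, rfl⟩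
  have hmO : ∀ e, e ∈ O ↔ ¬ (al e ∈ U ∨ be e ∈ U) := by intro e; rw [hO, mem_filter]; simp
  have hvU : ∀ v ∈ U, ∀ e, v ∈ G.ends e → al e ∈ U ∨ be e ∈ U := by
    intro v hv e he
    rw [hends e, Sym2.mem_iff] at he
    rcases he with rfl | rfl
    · exact Or.inl hv
    · exact Or.inr hv
  -- degrees in `U`
  have hdgS : ∀ v ∈ U, dg G S' v = dg G S v := by
    intro v hv
    unfold dg
    congr 1
    ext e
    rw [mem_filter, mem_filter, hmS]
    constructor
    · rintro ⟨⟨h1, _⟩, h2⟩; exact ⟨h1, h2⟩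
    · rintro ⟨h1, h2⟩
      refine ⟨⟨h1, ?_⟩, h2⟩
      rcases hvU v hv e h2 with h | h
      · exact h
      · exact (hSU e h1).2 h
  have hdgO : ∀ v ∈ U, dg G (A 0 ∪ O) v = dg G (A 0) v := by
    intro v hv
    unfold dg
    congr 1
    ext e
    rw [mem_filter, mem_filter, mem_union, hmO]
    constructor
    · rintro ⟨h1 | h1, h2⟩
      · exact ⟨h1, h2⟩
      · exact absurd (hvU v hv e h2) h1
    · rintro ⟨h1, h2⟩; exact ⟨Or.inl h1, h2⟩
  obtain ⟨Z, hZ⟩ : ∃ Z : Fin 3 → E → F2, Z = fun i e =>
    if e ∈ (![A 0 ∪ O, A 1, A 2] : Fin 3 → Finset E) i then 1 else 0 := ⟨_, rfl⟩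
  have hZ0 : ∀ e, Z 0 e = if e ∈ A 0 ∪ O then 1 else 0 := fun e => by rw [hZ]; rfl
  have hZ1 : ∀ e, Z 1 e = if e ∈ A 1 then 1 else 0 := fun e => by rw [hZ]; rfl
  have hZ2 : ∀ e, Z 2 e = if e ∈ A 2 then 1 else 0 := fun e => by rw [hZ]; rfl
  have hZf : ∀ i, IsFlow (fun e => coll U (al e)) (fun e => coll U (be e)) (Z i) := by
    intro i
    rw [hZ]
    apply coll_flow G U al be hab hends
    intro v hv
    fin_cases i
    · show Even (dg G (A 0 ∪ O) v)
      rw [hdgO v hv]
      exact hA 0 v hv
    · exact hA 1 v hv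
    · exact hA 2 v hv
  have hnz : ∀ e, e ∉ S' → Z 0 e ≠ 0 ∨ Z 1 e ≠ 0 ∨ Z 2 e ≠ 0 := by
    intro e he
    rw [hZ0, hZ1, hZ2]
    by_cases h1 : al e ∈ U ∨ be e ∈ U
    · have h2 : e ∉ S := by
        intro h
        apply he
        rw [hmS]
        refine ⟨h, ?_⟩
        rcases h1 with h1 | h1
        · exact h1
        · exact (hSU e h).2 h1
      obtain ⟨i, hi⟩ := hcov e h2 h1
      fin_cases i
      · left
        have : e ∈ A 0 := hi
        simp [this]
      · right; left
        have : e ∈ A 1 := hi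
        simp [this]
      · right; right
        have : e ∈ A 2 := hi
        simp [this]
    · left
      have : e ∈ O := (hmO e).2 h1
      simp [this]
  have hSf := coll_flow G U al be hab hends S' (fun v hv => by
    rw [hdgS v hv]
    rcases hS v with h | h <;> rw [h] <;> decide)
  have hZS : ∀ e ∈ S', Z 0 e = 0 := by
    intro e he
    rw [hmS] at he
    rw [hZ0, if_neg]
    rw [mem_union, hmO]
    rintro (h | h)
    · exact hA0 e he.1 h
    · exact h (Or.inl he.2)
  obtain ⟨k, Y, hk, hY, hY1, hY2⟩ := liftG (fun e => coll U (al e)) (fun e => coll U (be e)) S' hSf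
    Z hZf hnz (by
    intro x hx _
    have hx0 : ∀ e ∈ S', x 0 (coll U (al e)) = x 0 (coll U (be e)) := by
      intro e he
      rw [hmS] at he
      have h1 := hL e he.1 he.2
      generalize be e = w at h1 ⊢
      induction h1 with
      | refl => rfl
      | tail _ h ih =>
        rename_i b c
        obtain ⟨f, hf, hf0, hfe⟩ := h
        rw [ih]
        have hkey : x 0 (coll U (al f)) = x 0 (coll U (be f)) := by
          by_cases h1 : al f ∈ U ∨ be f ∈ U
          · obtain ⟨y, hy⟩ := hx f (fun h => hf ((hmS f).1 h).1)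
            have h2 := hy 0
            rw [hZ0, if_neg, mul_zero] at h2
            · exact CharTwo.add_eq_zero.1 h2.symm
            · rw [mem_union, hmO]
              rintro (h | h)
              · exact hf0 h
              · exact h h1
          · rw [not_or] at h1
            unfold coll
            rw [if_neg h1.1, if_neg h1.2]
        rw [hends f, Sym2.eq_iff] at hfe
        rcases hfe with ⟨rfl, rfl⟩ | ⟨rfl, rfl⟩
        · exact hkey
        · exact hkey.symm
    refine ⟨fun i w => if i = 0 then x 0 w else 0, fun i e he => ?_, fun e he => ?_⟩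
    · by_cases hi : i = 0
      · simp only [hi, if_true]
        exact hx0 e he
      · simp only [if_neg hi]
    · simp only [if_true, hZS e he, zero_add]
      have h1 := CharTwo.add_self_eq_zero (x 0 (coll U (al e)))
      have h2 := CharTwo.add_self_eq_zero (x 0 (coll U (be e)))
      rw [h1, h2]
      simp)
  -- shift along `S`
  have hshift : ∀ K : Option V → F2, (∀ e ∈ S', K (coll U (al e)) = K (coll U (be e))) →
      IsFlow (fun e => coll U (al e)) (fun e => coll U (be e))
        (fun e => if e ∈ S' then K (coll U (al e)) else 0) := by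
    intro K hK c
    have h1 := hSf (fun v => K v * c v)
    refine Eq.trans (Finset.sum_congr rfl fun e _ => ?_) h1
    by_cases he : e ∈ S'
    · simp only [if_pos he, ← hK e he]
      ring
    · simp only [if_neg he]
      ring
  have hadd : ∀ ψ φ : E → F2, IsFlow (fun e => coll U (al e)) (fun e => coll U (be e)) ψ →
      IsFlow (fun e => coll U (al e)) (fun e => coll U (be e)) φ →
      IsFlow (fun e => coll U (al e)) (fun e => coll U (be e)) (fun e => ψ e + φ e) := by
    intro ψ φ h1 h2 c
    simp only [add_mul, Finset.sum_add_distrib]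
    rw [h1 c, h2 c, add_zero]
  obtain ⟨Z', hZ'⟩ : ∃ Z' : Fin 3 → E → F2, Z' = fun i e =>
    Z i e + (if e ∈ S' then k i (coll U (al e)) else 0) := ⟨_, rfl⟩
  obtain ⟨Y', hY'⟩ : ∃ Y' : Fin 3 → E → F2, Y' = fun i e =>
    Y i e + (if e ∈ S' then lamc (fun j => k j (coll U (al e))) i else 0) := ⟨_, rfl⟩
  have hZ'f : ∀ i, IsFlow (fun e => coll U (al e)) (fun e => coll U (be e)) (Z' i) := by
    intro i
    rw [hZ']
    exact hadd _ _ (hZf i) (hshift (k i) (hk i))
  have hY'f : ∀ i, IsFlow (fun e => coll U (al e)) (fun e => coll U (be e)) (Y' i) := by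
    intro i
    rw [hY']
    exact hadd _ _ (hY i) (hshift (fun v => lamc (fun j => k j v) i) (fun e he => by
      simp only [hk _ e he]))
  have hnz' : ∀ e, e ∉ S' → Z' 0 e ≠ 0 ∨ Z' 1 e ≠ 0 ∨ Z' 2 e ≠ 0 := by
    intro e he
    rw [hZ']
    simp only [if_neg he, add_zero]
    exact hnz e he
  have hdot : ∀ e, e ∉ S' → dot (lab Z' e) (lab Y' e) = true := by
    intro e he
    apply toB_dot
    rw [hZ', hY']
    simp only [if_neg he, add_zero]
    exact hY1 e he
  have hlam : ∀ e ∈ S', ∀ i, Y' i e = lamc (fun j => Z' j e) i := by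
    intro e he i
    have h1 := hY2 e he i
    rw [hY', hZ']
    simp only [if_pos he]
    rw [lamc_add, ← h1]
    have h2 := CharTwo.add_self_eq_zero (crs (fun j => Z j e) (fun j => k j (coll U (al e))) i)
    linear_combination -h2
  obtain ⟨X, hX⟩ : ∃ X : T3 → Finset E, ∀ c e, e ∈ X c ↔
      (if e ∈ S' then decide (c = lab Z' e) else inS c (lab Z' e) (lab Y' e)) = true :=
    ⟨fun c => univ.filter fun e =>
      (if e ∈ S' then decide (c = lab Z' e) else inS c (lab Z' e) (lab Y' e)) = true, by
      intro c e; simp⟩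
  have hXS : ∀ c e, e ∈ S' → (e ∈ X c ↔ decide (c = lab Z' e) = true) := by
    intro c e he
    rw [hX, if_pos he]
  have hXN : ∀ c e, e ∉ S' → (e ∈ X c ↔ inS c (lab Z' e) (lab Y' e) = true) := by
    intro c e he
    rw [hX, if_neg he]
  refine ⟨X, fun c v hv => ?_, fun e he hea => ?_, fun e he hea => ?_⟩
  · exact local_even G S' v (hG v) (by rw [hdgS v hv]; exact hS v) Z' Y'
      (fun i => coll_at G U al be hab hends _ (hZ'f i) v hv)
      (fun i => coll_at G U al be hab hends _ (hY'f i) v hv) hnz' hdot hlam X hXS hXN c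
  · have he' : e ∈ S' := (hmS e).2 ⟨he, hea⟩
    simp only [hXS _ e he', decide_eq_true_eq]
    rw [Finset.filter_eq' univ (lab Z' e), if_pos (mem_univ _), card_singleton]
  · have he' : e ∉ S' := fun h => he ((hmS e).1 h).1
    simp only [hXN _ e he']
    exact card_inS _ _ (hdot e he')

end Pool.Agent.H46.CDCS
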