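import Pool.Agent.H46.CDCS.CoverG
import Pool.Agent.H46.CDCS.Flows

/-!
Cycle double covers through a 2-regular subgraph `S` of a cubic graph from three even subgraphs
which cover the edges outside `S`.
-/

set_option autoImplicit false

open Finset

namespace Pool.Agent.H46.CDCS.Planes

open Pool.Agent.Helper347.Sab
open Pool.Agent.Results.MP_0c3aa4_co.ThroughDominating (TwoRegular IsCycleDoubleCover)
open Pool.Agent.Results.MP_0c3aa4_co.FewOddParts (Linked parts NoThreeCut even_of_connected)

variable {V E : Type} [Fintype V] [DecidableEq V] [Fintype E] [DecidableEq E]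

/-- The edges outside `S` which lie in an even number of the sets `A i` with `i` in `m` (the edges
outside `S` and outside the sum of these sets). -/
def Rest (S : Finset E) (A : Fin 3 → Finset E) (m : Finset (Fin 3)) : Finset E :=
  univ.filter fun e => e ∉ S ∧ Even (m.filter fun i => e ∈ A i).card

/-- `G` has a cycle double cover that contains every cycle of `S`, and `G` has nine even subgraphs
`D 0 = S`, `D 1, ..., D 8` such that every edge lies in exactly two of them. -/
def Covered (G : MGraph V E) (S : Finset E) : Prop :=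
  (∃ F : Finset (Finset E), IsCycleDoubleCover G F ∧ ∀ C, IsCircuit G C → C ⊆ S → C ∈ F) ∧
  ∃ D : Fin 9 → Finset E, (∀ i v, Even (dg G (D i) v)) ∧ D 0 = S ∧
    ∀ e, (univ.filter fun i => e ∈ D i).card = 2

theorem covered_of_eight (G : MGraph V E) (hG : IsCubic G) (S : Finset E) (hS : TwoRegular G S)
    (h : ∃ X : Pool.Agent.H126R2.CDC.T3 → Finset E, (∀ c, Ev G (X c)) ∧
      (∀ e ∈ S, (univ.filter fun c => e ∈ X c).card = 1) ∧
      (∀ e, e ∉ S → (univ.filter fun c => e ∈ X c).card = 2)) : Covered G S := by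
  classical
  obtain ⟨X, h1, h2, h3⟩ := h
  refine ⟨Pool.Agent.H46.CDCS.cdc_of_family G hG S hS X h1 h2 h3, ?_⟩
  have hcard : Fintype.card Pool.Agent.H126R2.CDC.T3 = Fintype.card (Fin 8) := by rfl
  obtain ⟨ε⟩ : Nonempty (Fin 8 ≃ Pool.Agent.H126R2.CDC.T3) := ⟨(Fintype.equivOfCardEq hcard).symm⟩
  refine ⟨Fin.cons S (fun i => X (ε i)), ?_, rfl, ?_⟩
  · intro i v
    refine Fin.cases ?_ (fun j => ?_) i
    · rcases hS v with h | h <;> simp [h]
    · exact h1 _ v
  · intro e
    have h4 : (univ.filter fun i : Fin 8 => e ∈ X (ε i)).card =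
        (univ.filter fun c => e ∈ X c).card := by
      apply Finset.card_bij (fun i _ => ε i)
      · intro i hi
        rw [mem_filter] at hi ⊢
        exact ⟨mem_univ _, hi.2⟩
      · intro i _ j _ hij
        exact ε.injective hij
      · intro c hc
        rw [mem_filter] at hc
        exact ⟨ε.symm c, mem_filter.2 ⟨mem_univ _, by simpa using hc.2⟩, by simp⟩
    rw [card_filter, Fin.sum_univ_succ]
    simp only [Fin.cons_zero, Fin.cons_succ]
    rw [← card_filter, h4]
    by_cases he : e ∈ S
    · rw [if_pos he, h2 e he]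
    · rw [if_neg he, h3 e he]

/-- The general statement. -/
theorem covered_of_planes (G : MGraph V E) (hG : IsCubic G) (S : Finset E) (hS : TwoRegular G S)
    (A : Fin 3 → Finset E) (n : V → Finset (Fin 3)) (hA : ∀ i v, Even (dg G (A i) v))
    (hcov : ∀ e, e ∉ S → ∃ i, e ∈ A i)
    (hn : ∀ e ∈ S, ∀ u ∈ G.ends e, ∀ v ∈ G.ends e, n u = n v ∧ (n u).Nonempty ∧
      Linked G (Rest S A (n u)) u v) : Covered G S := by
  classical
  apply covered_of_eight G hG S hS
  -- an edge of `S` at each vertex of `S`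
  have hpick : ∀ v, dg G S v = 2 → ∃ e ∈ S, ∃ w, w ≠ v ∧ G.ends e = s(v, w) := by
    intro v hv
    have : 0 < dg G S v := by omega
    unfold dg at this
    rw [card_pos] at this
    obtain ⟨e, he⟩ := this
    rw [mem_filter] at he
    obtain ⟨a, b, hab, hends⟩ := exists_ends G e
    have h1 := he.2
    rw [hends, Sym2.mem_iff] at h1
    rcases h1 with rfl | rfl
    · exact ⟨e, he.1, b, hab.symm, hends⟩
    · exact ⟨e, he.1, a, hab, by rw [hends, Sym2.eq_swap]⟩
  apply Pool.Agent.H46.CDCS.eight G hG S hS A hA hcov n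
  · intro v hv
    obtain ⟨e, he, w, _, hends⟩ := hpick v hv
    exact (hn e he v (by rw [hends]; simp) v (by rw [hends]; simp)).2.1
  · intro e he u hu v hv
    exact (hn e he u hu v hv).1
  · intro v hv e he hev
    obtain ⟨g, hg, w, hw, hends⟩ := hpick v hv
    have h1 := (hn g hg v (by rw [hends]; simp) w (by rw [hends]; simp)).2.2
    rcases Relation.ReflTransGen.cases_head h1 with h2 | ⟨c, ⟨f, hf, hfe⟩, _⟩
    · exact absurd h2.symm hw
    · rw [Rest, mem_filter] at hf
      have h3 := dg_sdiff (G := G) (X := univ) (Y := S) (subset_univ _) v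
      rw [hG v, hv] at h3
      have h4 : dg G (univ \ S) v = 1 := by omega
      obtain ⟨g', hg'⟩ := card_eq_one.1 h4
      have h5 : ∀ x, x ∉ S → v ∈ G.ends x → x = g' := by
        intro x hx hvx
        have : x ∈ (univ \ S).filter fun e => v ∈ G.ends e :=
          mem_filter.2 ⟨mem_sdiff.2 ⟨mem_univ _, hx⟩, hvx⟩
        rw [hg', mem_singleton] at this
        exact this
      rw [h5 e he hev, ← h5 f hf.2.1 (by rw [hfe]; simp)]
      exact hf.2.2
  · intro e he u hu v hv
    refine Relation.ReflTransGen.mono ?_ _ _ (hn e he u hu v hv).2.2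
    rintro a b ⟨f, hf, hfe⟩
    rw [Rest, mem_filter] at hf
    exact ⟨f, hf.2.1, hf.2.2, hfe⟩

/-- One even subgraph `D` for all cycles of `S`. -/
theorem covered_of_one (G : MGraph V E) (hG : IsCubic G) (S : Finset E) (hS : TwoRegular G S)
    (D A B : Finset E) (hD : ∀ v, Even (dg G D v)) (hA : ∀ v, Even (dg G A v))
    (hB : ∀ v, Even (dg G B v))
    (hL : ∀ e ∈ S, ∀ u ∈ G.ends e, ∀ v ∈ G.ends e, Linked G (univ \ (S ∪ D)) u v)
    (hcov : ∀ e, e ∉ S ∪ D → e ∈ A ∨ e ∈ B) : Covered G S := by
  classical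
  apply covered_of_planes G hG S hS ![D, A, B] (fun _ => {0})
  · intro i
    fin_cases i
    · exact hD
    · exact hA
    · exact hB
  · intro e he
    by_cases hd : e ∈ D
    · exact ⟨0, hd⟩
    · rcases hcov e (by rw [mem_union]; tauto) with h | h
      · exact ⟨1, h⟩
      · exact ⟨2, h⟩
  · intro e he u hu v hv
    refine ⟨rfl, singleton_nonempty _, Relation.ReflTransGen.mono ?_ _ _ (hL e he u hu v hv)⟩
    rintro a b ⟨f, hf, hfe⟩
    refine ⟨f, ?_, hfe⟩
    rw [mem_sdiff, mem_union, not_or] at hf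
    rw [Rest, mem_filter]
    refine ⟨mem_univ _, hf.2.1, ?_⟩
    have : (({0} : Finset (Fin 3)).filter fun i => f ∈ (![D, A, B] : Fin 3 → Finset E) i) = ∅ := by
      rw [filter_eq_empty_iff]
      intro i hi
      rw [mem_singleton] at hi
      subst hi
      exact hf.2.2
    rw [this]
    decide

end Pool.Agent.H46.CDCS.Planes
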